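import Pool.Agent.Q40.SM.Crit

/-!
Polynomial maps are slow, and their ranks.
-/

set_option autoImplicit false

namespace Pool.Agent.Q40.SM

open MvPolynomial Filter Topology Pool.Agent.Q64.FS Pool.Agent.Q64.LC Pool.Agent.TH143.GT
  Pool.Agent.W602.GT Pool.Agent.Q33.UR
open Pool.Agent.Q33.SP (Unirational)

variable {d n e : ℕ}

/-- the polynomial map -/
noncomputable def pmap (W : Fin (n + 1) → MvPolynomial (Fin e) ℂ) (t : Fin e → ℂ) (i : Fin (n + 1)) :
    ℂ := eval t (W i)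

theorem eval_bound (P : MvPolynomial (Fin e) ℂ) :
    ∃ (C : ℝ) (D : ℕ), 0 ≤ C ∧ ∀ t : Fin e → ℂ, 1 ≤ ‖t‖ → ‖eval t P‖ ≤ C * ‖t‖ ^ D := by
  refine ⟨∑ m ∈ P.support, ‖coeff m P‖, P.totalDegree,
    Finset.sum_nonneg fun m _ => norm_nonneg _, fun t ht => ?_⟩
  rw [eval_eq', Finset.sum_mul]
  refine norm_sum_le_of_le _ fun m hm => ?_
  rw [norm_mul, norm_prod]
  refine mul_le_mul_of_nonneg_left ?_ (norm_nonneg _)
  calc ∏ i, ‖t i ^ m i‖ ≤ ∏ i, ‖t‖ ^ m i := by
        refine Finset.prod_le_prod (fun i _ => norm_nonneg _) fun i _ => ?_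
        rw [norm_pow]
        exact pow_le_pow_left₀ (norm_nonneg _) (norm_le_pi_norm t i) _
    _ = ‖t‖ ^ (∑ i, m i) := Finset.prod_pow_eq_pow_sum _ _ _
    _ ≤ ‖t‖ ^ P.totalDegree := by
        refine pow_le_pow_right₀ ht ?_
        have h1 := le_totalDegree hm
        rwa [Finsupp.sum_fintype _ _ (fun _ => rfl)] at h1

theorem slow_pmap {Ψ : ℝ → ℝ} (hΨ : SuperPoly Ψ) (W : Fin (n + 1) → MvPolynomial (Fin e) ℂ) :
    Slow Ψ (pmap W) := by
  choose C D hC h using fun i => eval_bound (W i)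
  let D' := Finset.univ.sup D
  let C' := ∑ i, C i
  have h1 := (hΨ D').eventually_ge_atTop 1
  obtain ⟨R, hR⟩ := (h1.and (eventually_ge_atTop (1 : ℝ))).exists_forall_of_atTop
  refine ⟨C', R, fun t ht => ?_⟩
  obtain ⟨h2, h3⟩ := hR ‖t‖ ht
  have h4 : (0 : ℝ) < ‖t‖ ^ D' := by positivity
  rw [le_div_iff₀ h4, one_mul] at h2
  have hC' : 0 ≤ C' := Finset.sum_nonneg fun i _ => hC i
  have hΨ0 : 0 ≤ C' * Ψ ‖t‖ := mul_nonneg hC' (h4.le.trans h2)
  rw [pi_norm_le_iff_of_nonneg hΨ0]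
  intro i
  calc ‖pmap W t i‖ ≤ C i * ‖t‖ ^ D i := h i t h3
    _ ≤ C i * ‖t‖ ^ D' := mul_le_mul_of_nonneg_left
        (pow_le_pow_right₀ h3 (Finset.le_sup (Finset.mem_univ i))) (hC i)
    _ ≤ C' * Ψ ‖t‖ := mul_le_mul (Finset.single_le_sum (fun i _ => hC i) (Finset.mem_univ i)) h2
        h4.le hC'

theorem diff_pmap (W : Fin (n + 1) → MvPolynomial (Fin e) ℂ) : Differentiable ℂ (pmap W) := by
  rw [differentiable_pi]
  intro i
  unfold pmap
  have h1 : ∀ P : MvPolynomial (Fin e) ℂ, Differentiable ℂ fun t => eval t P := by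
    intro P
    induction P using MvPolynomial.induction_on with
    | C a =>
      simp only [eval_C]
      exact differentiable_const _
    | add p q hp hq =>
      simp only [map_add]
      exact hp.add hq
    | mul_X p a hp =>
      simp only [map_mul, eval_X]
      exact hp.mul (differentiable_apply a)
  exact h1 (W i)

theorem fderiv_pmap (W : Fin (n + 1) → MvPolynomial (Fin e) ℂ) (l : Fin e) (i : Fin (n + 1)) :
    fderiv ℂ (pmap W) 0 (Pi.single l 1) i = eval 0 (pderiv l (W i)) := by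
  have h5 : HasDerivAt (fun ζ : ℂ => (Pi.single l ζ : Fin e → ℂ)) (Pi.single l 1) 0 := by
    rw [hasDerivAt_pi]
    intro k
    by_cases hk : k = l
    · subst hk
      simp only [Pi.single_eq_same]
      exact hasDerivAt_id 0
    · simp only [Pi.single_eq_of_ne hk]
      exact hasDerivAt_const _ _
  have h0 : (Pi.single l (0 : ℂ) : Fin e → ℂ) = 0 := Pi.single_zero l
  have h6 : HasFDerivAt (pmap W) (fderiv ℂ (pmap W) 0) (Pi.single l (0 : ℂ)) := by
    rw [h0]
    exact (diff_pmap W 0).hasFDerivAt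
  have h7 := (hasDerivAt_pi.1 (h6.comp_hasDerivAt (0 : ℂ) h5)) i
  have h8 : HasDerivAt (fun ζ : ℂ => (axis l (W i)).eval ζ) ((axis l (W i)).derivative.eval 0) 0 :=
    (axis l (W i)).hasDerivAt 0
  have h9 : (fun ζ : ℂ => (axis l (W i)).eval ζ) = fun ζ => pmap W (Pi.single l ζ) i := by
    funext ζ
    exact axis_eval l (W i) ζ
  rw [h9, axis_deriv] at h8
  exact h7.unique h8

/-- the rank of polynomial maps -/
theorem rank_pmap {W : Fin (n + 1) → MvPolynomial (Fin e) ℂ} {j : Fin (e + 1) → Fin (n + 1)}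
    (h0 : eval 0 (W (j 0)) ≠ 0) (h : (jm W j).det ≠ 0) : RankAt (pmap W) j 0 := by
  refine ⟨h0, fun i => Pi.single i 1, ?_⟩
  have h1 : (Matrix.of fun i l : Fin e =>
      fderiv ℂ (pmap W) 0 (Pi.single i 1) (j l.succ) * pmap W 0 (j 0) -
        pmap W 0 (j l.succ) * fderiv ℂ (pmap W) 0 (Pi.single i 1) (j 0)) = jm W j := by
    ext i l
    rw [Matrix.of_apply, fderiv_pmap, fderiv_pmap]
    rfl
  change (Matrix.of fun i l : Fin e =>
      fderiv ℂ (pmap W) 0 (Pi.single i 1) (j l.succ) * pmap W 0 (j 0) -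
        pmap W 0 (j l.succ) * fderiv ℂ (pmap W) 0 (Pi.single i 1) (j 0)).det ≠ 0
  rw [h1]
  exact h

end Pool.Agent.Q40.SM
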