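import Pool.Agent.Q40.SM.One

/-!
Newton coefficients of arrays, and their size for the values of entire maps at the lattice points.
-/

set_option autoImplicit false

namespace Pool.Agent.Q40.SM

open Filter Topology Pool.Agent.Q64.FS

variable {d n : ℕ}

/-- the signed products of binomial coefficients -/
noncomputable def wt (i m : Fin d → ℕ) : ℂ := ∏ k, ((-1 : ℂ) ^ (i k - m k) * ((i k).choose (m k) : ℂ))

/-- the Newton coefficients of the array `F` -/
noncomputable def ncf (F : (Fin d → ℕ) → Fin n → ℂ) (i : Fin d → ℕ) (j : Fin n) : ℂ :=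
  ∑ m ∈ Finset.Iic i, wt i m * F m j

theorem wt_zero {i m : Fin d → ℕ} (h : ¬ m ≤ i) : wt i m = 0 := by
  rw [Pi.le_def] at h
  push Not at h
  obtain ⟨k, hk⟩ := h
  refine Finset.prod_eq_zero (Finset.mem_univ k) ?_
  rw [Nat.choose_eq_zero_of_lt hk, Nat.cast_zero, mul_zero]

theorem norm_wt (i m : Fin d → ℕ) : ‖wt i m‖ = (bin i m : ℝ) := by
  unfold wt bin
  rw [norm_prod, Nat.cast_prod]
  refine Finset.prod_congr rfl fun k _ => ?_
  rw [norm_mul, norm_pow, norm_neg, norm_one, one_pow, one_mul, Complex.norm_natCast]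

theorem iic_pi (m : Fin d → ℕ) :
    Finset.Iic m = Fintype.piFinset fun k => Finset.Iic (m k) := by
  ext i
  rw [Finset.mem_Iic, Fintype.mem_piFinset, Pi.le_def]
  simp only [Finset.mem_Iic]

theorem one_dim (a b : ℕ) :
    ∑ t ∈ Finset.Iic a, ((a.choose t : ℂ) * ((-1 : ℂ) ^ (t - b) * (t.choose b : ℂ))) =
      if a = b then 1 else 0 := by
  have h1 := shift_eq_sum_fwdDiff_iter (1 : ℕ) (fun t : ℕ => if t = b then (1 : ℂ) else 0) a 0
  rw [zero_add, smul_eq_mul, mul_one] at h1
  rw [h1]
  have h2 : Finset.Iic a = Finset.range (a + 1) := by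
    ext t
    rw [Finset.mem_Iic, Finset.mem_range, Nat.lt_succ_iff]
  rw [h2]
  refine Finset.sum_congr rfl fun t _ => ?_
  rw [nsmul_eq_mul]
  congr 1
  have h3 := dd_eq (fun t : ℕ => if t = b then (1 : ℂ) else 0) t
  unfold dd at h3
  rw [h3]
  simp only [mul_ite, mul_one, mul_zero]
  rw [Finset.sum_ite_eq' (Finset.range (t + 1)) b]
  split_ifs with h4
  · rfl
  · rw [Finset.mem_range] at h4
    rw [Nat.choose_eq_zero_of_lt (by omega), Nat.cast_zero, mul_zero]

theorem orth (m m' : Fin d → ℕ) :
    ∑ i ∈ Finset.Iic m, (bin m i : ℂ) * wt i m' = if m = m' then 1 else 0 := by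
  have h1 : ∀ i : Fin d → ℕ, (bin m i : ℂ) * wt i m' = ∏ k, (((m k).choose (i k) : ℂ) *
      ((-1 : ℂ) ^ (i k - m' k) * ((i k).choose (m' k) : ℂ))) := by
    intro i
    unfold wt bin
    rw [Nat.cast_prod, ← Finset.prod_mul_distrib]
  rw [Finset.sum_congr rfl fun i _ => h1 i, iic_pi,
    ← Finset.prod_univ_sum (fun k => Finset.Iic (m k)) (fun k t => ((m k).choose t : ℂ) *
      ((-1 : ℂ) ^ (t - m' k) * (t.choose (m' k) : ℂ)))]
  rw [Finset.prod_congr rfl fun k _ => one_dim (m k) (m' k)]
  split_ifs with h2
  · rw [h2]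
    simp
  · obtain ⟨k, hk⟩ := Function.ne_iff.1 h2
    exact Finset.prod_eq_zero (Finset.mem_univ k) (if_neg hk)

/-- **Newton's formula.** -/
theorem nval_ncf (F : (Fin d → ℕ) → Fin n → ℂ) (m : Fin d → ℕ) : nval (ncf F) m = F m := by
  classical
  funext j
  unfold nval ncf
  have h1 : ∀ i ∈ Finset.Iic m, (bin m i : ℂ) * ∑ m' ∈ Finset.Iic i, wt i m' * F m' j =
      ∑ m' ∈ Finset.Iic m, (bin m i : ℂ) * wt i m' * F m' j := by
    intro i hi
    rw [Finset.mem_Iic] at hi
    rw [Finset.mul_sum]
    rw [Finset.sum_subset (Finset.Iic_subset_Iic.2 hi) fun m' _ hm' => by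
      rw [wt_zero (fun h => hm' (Finset.mem_Iic.2 h)), zero_mul, mul_zero]]
    exact Finset.sum_congr rfl fun m' _ => (mul_assoc _ _ _).symm
  rw [Finset.sum_congr rfl h1, Finset.sum_comm]
  rw [Finset.sum_eq_single m]
  · rw [← Finset.sum_mul, orth, if_pos rfl, one_mul]
  · intro m' _ hm'
    rw [← Finset.sum_mul, orth, if_neg (Ne.symm hm'), zero_mul]
  · intro h
    exact absurd (Finset.mem_Iic.2 le_rfl) h

/-- the slice in the direction of the coordinate `l` -/
theorem ncf_slice (F : (Fin d → ℕ) → Fin n → ℂ) (i : Fin d → ℕ) (l : Fin d) (j : Fin n) :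
    ncf F i j = dd (fun t => ∑ m ∈ Finset.Iic (Function.update i l 0),
      wt (Function.update i l 0) m * F (Function.update m l t) j) (i l) := by
  classical
  rw [dd_eq]
  have h1 : ∀ t m, m ≤ Function.update i l 0 →
      wt i (Function.update m l t) = ((-1 : ℂ) ^ (i l - t) * ((i l).choose t : ℂ)) *
        wt (Function.update i l 0) m := by
    intro t m hm
    have hml : m l = 0 := by
      have := hm l
      rw [Function.update_self] at this
      exact Nat.le_zero.1 this
    unfold wt
    rw [← Finset.mul_prod_erase Finset.univ _ (Finset.mem_univ l),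
      ← Finset.mul_prod_erase Finset.univ (fun k => (-1 : ℂ) ^ (Function.update i l 0 k - m k) *
        ((Function.update i l 0 k).choose (m k) : ℂ)) (Finset.mem_univ l)]
    rw [Function.update_self, Function.update_self, hml]
    simp only [Nat.sub_self, pow_zero, Nat.choose_self, Nat.cast_one, one_mul]
    congr 1
    refine Finset.prod_congr rfl fun k hk => ?_
    rw [Function.update_of_ne (Finset.ne_of_mem_erase hk),
      Function.update_of_ne (Finset.ne_of_mem_erase hk)]
  have h2 : ∀ t ∈ Finset.range (i l + 1), ((-1 : ℂ) ^ (i l - t) * ((i l).choose t : ℂ)) *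
      ∑ m ∈ Finset.Iic (Function.update i l 0),
        wt (Function.update i l 0) m * F (Function.update m l t) j =
      ∑ m ∈ Finset.Iic (Function.update i l 0),
        wt i (Function.update m l t) * F (Function.update m l t) j := by
    intro t _
    rw [Finset.mul_sum]
    refine Finset.sum_congr rfl fun m hm => ?_
    rw [h1 t m (Finset.mem_Iic.1 hm)]
    ring
  rw [Finset.sum_congr rfl h2, ← Finset.sum_product']
  unfold ncf
  refine Finset.sum_bij' (fun m _ => (m l, Function.update m l 0))
    (fun q _ => Function.update q.2 l q.1) ?_ ?_ ?_ ?_ ?_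
  · intro m hm
    rw [Finset.mem_Iic] at hm
    rw [Finset.mem_product, Finset.mem_range, Nat.lt_succ_iff, Finset.mem_Iic]
    refine ⟨hm l, fun k => ?_⟩
    change Function.update m l 0 k ≤ Function.update i l 0 k
    by_cases hk : k = l
    · subst hk
      rw [Function.update_self, Function.update_self]
    · rw [Function.update_of_ne hk, Function.update_of_ne hk]
      exact hm k
  · rintro ⟨t, m⟩ hq
    rw [Finset.mem_product, Finset.mem_range, Nat.lt_succ_iff, Finset.mem_Iic] at hq
    rw [Finset.mem_Iic]
    intro k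
    by_cases hk : k = l
    · subst hk
      rw [Function.update_self]
      exact hq.1
    · have := hq.2 k
      rw [Function.update_of_ne hk] at this ⊢
      exact this
  · intro m _
    change Function.update (Function.update m l 0) l (m l) = m
    rw [Function.update_idem, Function.update_eq_self]
  · rintro ⟨t, m⟩ hq
    rw [Finset.mem_product, Finset.mem_range, Nat.lt_succ_iff, Finset.mem_Iic] at hq
    have hml : m l = 0 := by
      have := hq.2 l
      rw [Function.update_self] at this
      exact Nat.le_zero.1 this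
    change (Function.update m l t l, Function.update (Function.update m l t) l 0) = (t, m)
    rw [Function.update_self, Function.update_idem, ← hml, Function.update_eq_self]
  · intro m _
    change wt i m * F m j = wt i (Function.update (Function.update m l 0) l (m l)) *
      F (Function.update (Function.update m l 0) l (m l)) j
    rw [Function.update_idem, Function.update_eq_self]

/-- the sum of the products of binomial coefficients -/
theorem sum_bin (i : Fin d → ℕ) : ∑ m ∈ Finset.Iic i, (bin i m : ℝ) = 2 ^ (∑ k, i k) := by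
  have h1 : ∀ m : Fin d → ℕ, (bin i m : ℝ) = ∏ k, ((i k).choose (m k) : ℝ) := by
    intro m
    unfold bin
    rw [Nat.cast_prod]
  rw [Finset.sum_congr rfl fun m _ => h1 m, iic_pi,
    ← Finset.prod_univ_sum (fun k => Finset.Iic (i k)) (fun k t => ((i k).choose t : ℝ)),
    ← Finset.prod_pow_eq_pow_sum]
  refine Finset.prod_congr rfl fun k _ => ?_
  have h2 : Finset.Iic (i k) = Finset.range (i k + 1) := by
    ext t
    rw [Finset.mem_Iic, Finset.mem_range, Nat.lt_succ_iff]
  rw [h2]
  have h3 := Nat.sum_range_choose (i k)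
  have h4 : ((∑ t ∈ Finset.range (i k + 1), (i k).choose t : ℕ) : ℝ) = ((2 ^ (i k) : ℕ) : ℝ) := by
    rw [h3]
  push_cast at h4
  exact h4

/-- the values at the lattice points -/
def vals (f : (Fin d → ℂ) → Fin n → ℂ) (m : Fin d → ℕ) : Fin n → ℂ := f fun k => (m k : ℂ)

/-- **The Newton coefficients of the values of an entire map.** -/
theorem ncf_small {f : (Fin d → ℂ) → Fin n → ℂ} (hf : Differentiable ℂ f) {R B : ℝ} (hR : 0 < R)
    (hB : ∀ z, ‖z‖ = R → ‖f z‖ ≤ B) {i : Fin d → ℕ} (hs : 1 ≤ mx i) (hsR : 2 * (mx i : ℝ) ≤ R)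
    (j : Fin n) :
    ‖ncf (vals f) i j‖ ≤ 2 ^ (mx i + 1) * (2 ^ (d * mx i) * B) * (mx i / R) ^ (mx i) := by
  classical
  obtain ⟨l, hl⟩ : ∃ l, mx i = i l := by
    have hne : (Finset.univ : Finset (Fin d)).Nonempty := by
      by_contra h
      rw [Finset.not_nonempty_iff_eq_empty] at h
      unfold mx at hs
      rw [h, Finset.sup_empty] at hs
      exact absurd hs (by simp)
    obtain ⟨l, -, hl⟩ := Finset.exists_mem_eq_sup Finset.univ hne i
    exact ⟨l, hl⟩
  let pt : (Fin d → ℕ) → ℂ → Fin d → ℂ := fun m ζ k => if k = l then ζ else (m k : ℂ)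
  let G : ℂ → ℂ := fun ζ => ∑ m ∈ Finset.Iic (Function.update i l 0),
    wt (Function.update i l 0) m * f (pt m ζ) j
  have hpt : ∀ m, Differentiable ℂ (pt m) := by
    intro m
    rw [differentiable_pi]
    intro k
    simp only [pt]
    split_ifs
    · exact differentiable_id
    · exact differentiable_const _
  have hG : Differentiable ℂ G := by
    apply Differentiable.fun_sum
    intro m _
    exact ((differentiable_pi.1 (hf.comp (hpt m))) j).const_mul _
  have hval : ∀ (m : Fin d → ℕ) (t : ℕ), f (pt m t) = vals f (Function.update m l t) := by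
    intro m t
    unfold vals
    congr 1
    funext k
    simp only [pt]
    by_cases hk : k = l
    · subst hk
      rw [if_pos rfl, Function.update_self]
    · rw [if_neg hk, Function.update_of_ne hk]
  have h1 : ncf (vals f) i j = dd (fun t => G (t : ℂ)) (mx i) := by
    rw [ncf_slice _ i l, hl]
    congr 1
    funext t
    simp only [G]
    refine Finset.sum_congr rfl fun m _ => ?_
    rw [hval]
  have hnorm : ∀ m ∈ Finset.Iic (Function.update i l 0), ∀ ζ : ℂ, ‖ζ‖ = R → ‖pt m ζ‖ = R := by
    intro m hm ζ hζ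
    rw [Finset.mem_Iic] at hm
    apply le_antisymm
    · rw [pi_norm_le_iff_of_nonneg hR.le]
      intro k
      simp only [pt]
      split_ifs with hk
      · exact hζ.le
      · rw [Complex.norm_natCast]
        have h2 := hm k
        rw [Function.update_of_ne hk] at h2
        have h3 : (m k : ℝ) ≤ (mx i : ℝ) := by exact_mod_cast h2.trans (le_mx i k)
        have h4 : (0 : ℝ) ≤ (mx i : ℝ) := Nat.cast_nonneg _
        linarith
    · have h2 := norm_le_pi_norm (pt m ζ) l
      simp only [pt, if_true] at h2
      rw [← hζ]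
      exact h2
  have hGB : ∀ ζ : ℂ, ‖ζ‖ = R → ‖G ζ‖ ≤ 2 ^ (d * mx i) * B := by
    intro ζ hζ
    have hB0 : 0 ≤ B := by
      have h2 := hB _ (hnorm 0 (Finset.mem_Iic.2 (Pi.le_def.2 fun _ => Nat.zero_le _)) ζ hζ)
      exact (norm_nonneg _).trans h2
    have h2 : ∀ m ∈ Finset.Iic (Function.update i l 0),
        ‖wt (Function.update i l 0) m * f (pt m ζ) j‖ ≤ (bin (Function.update i l 0) m : ℝ) * B := by
      intro m hm
      rw [norm_mul, norm_wt]
      exact mul_le_mul_of_nonneg_left ((norm_le_pi_norm _ j).trans (hB _ (hnorm m hm ζ hζ)))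
        (Nat.cast_nonneg _)
    refine (norm_sum_le_of_le _ h2).trans ?_
    rw [← Finset.sum_mul, sum_bin]
    refine mul_le_mul_of_nonneg_right (pow_le_pow_right₀ (by norm_num) ?_) hB0
    calc ∑ k, Function.update i l 0 k ≤ ∑ _k : Fin d, mx i := by
          refine Finset.sum_le_sum fun k _ => ?_
          by_cases hk : k = l
          · subst hk
            rw [Function.update_self]
            exact Nat.zero_le _
          · rw [Function.update_of_ne hk]
            exact le_mx i k
      _ = d * mx i := by
          rw [Finset.sum_const, Finset.card_univ, Fintype.card_fin, smul_eq_mul]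
  rw [h1]
  exact dd_small hG hR hGB hs hsR

/-- the coefficients on the coordinate axes -/
theorem ncf_axis (f : (Fin d → ℂ) → Fin n → ℂ) (l : Fin d) (s : ℕ) (j : Fin n) :
    ncf (vals f) (Pi.single l s) j = dd (fun t => f (Pi.single l (t : ℂ)) j) s := by
  classical
  have h1 := ncf_slice (vals f) (Pi.single l s) l j
  have h2 : Function.update (Pi.single l s : Fin d → ℕ) l 0 = 0 := by
    funext k
    by_cases hk : k = l
    · subst hk
      rw [Function.update_self]
      rfl
    · rw [Function.update_of_ne hk, Pi.single_eq_of_ne hk]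
      rfl
  rw [h2, Pi.single_eq_same] at h1
  rw [h1]
  congr 1
  funext t
  have h3 : Finset.Iic (0 : Fin d → ℕ) = {0} := by
    ext m
    rw [Finset.mem_Iic, Finset.mem_singleton]
    constructor
    · intro h
      funext k
      exact Nat.le_zero.1 (h k)
    · intro h
      rw [h]
  rw [h3, Finset.sum_singleton]
  have h4 : wt (0 : Fin d → ℕ) 0 = 1 := by
    unfold wt
    simp
  rw [h4, one_mul]
  unfold vals
  congr 1
  funext k
  by_cases hk : k = l
  · subst hk
    rw [Function.update_self, Pi.single_eq_same]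
  · rw [Function.update_of_ne hk, Pi.single_eq_of_ne hk]
    simp

end Pool.Agent.Q40.SM
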