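import Pool.Agent.Q40.SM.Maps

/-!
A variety is unirational if and only if there is a slow map of maximal rank.
-/

set_option autoImplicit false

namespace Pool.Agent.Q40.SM

open MvPolynomial Filter Topology Pool.Agent.Q64.FS Pool.Agent.Q64.LC Pool.Agent.TH143.GT
  Pool.Agent.W602.GT Pool.Agent.Q33.UR
open Pool.Agent.Q33.SP (Unirational)

variable {d n e : ℕ}

theorem mk_single (i : Fin e) :
    mkDerivation ℂ (fun a => (C ((Pi.single i 1 : Fin e → ℂ) a) : MvPolynomial (Fin e) ℂ)) =
      pderiv i := by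
  rw [pderiv_def]
  congr 1
  funext a
  by_cases h : a = i
  · subst h
    rw [Pi.single_eq_same, Pi.single_eq_same, C_1]
  · rw [Pi.single_eq_of_ne h, Pi.single_eq_of_ne h, C_0]

/-- polynomial maps with a nonvanishing Jacobian -/
theorem cover_of_jm {p : Ideal (MvPolynomial (Fin (n + 1)) ℂ)}
    {W : Fin (n + 1) → MvPolynomial (Fin e) ℂ} {j : Fin (e + 1) → Fin (n + 1)}
    (hW : ∀ H ∈ p, aeval W H = 0) (h : (jm W j).det ≠ 0) :
    Cover (fun H => H ∈ p) j fun i => eval 0 (W i) := by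
  have hmat : (Matrix.of fun i l : Fin e =>
      eval (0 : Fin e → ℂ) (mkDerivation ℂ (fun a => (C ((Pi.single i 1 : Fin e → ℂ) a) :
        MvPolynomial (Fin e) ℂ)) (W (j l.succ))) * eval 0 (W (j 0)) -
        eval 0 (W (j l.succ)) * eval (0 : Fin e → ℂ) (mkDerivation ℂ (fun a =>
          (C ((Pi.single i 1 : Fin e → ℂ) a) : MvPolynomial (Fin e) ℂ)) (W (j 0)))) = jm W j := by
    ext i l
    rw [Matrix.of_apply, mk_single]
    rfl
  refine ⟨Fin e, inferInstance, W, 0, fun i => Pi.single i 1, fun i => rfl,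
    fun _ H _ hH => hW H hH, ?_⟩
  change (Matrix.of fun i l : Fin e =>
      eval (0 : Fin e → ℂ) (mkDerivation ℂ (fun a => (C ((Pi.single i 1 : Fin e → ℂ) a) :
        MvPolynomial (Fin e) ℂ)) (W (j l.succ))) * eval 0 (W (j 0)) -
        eval 0 (W (j l.succ)) * eval (0 : Fin e → ℂ) (mkDerivation ℂ (fun a =>
          (C ((Pi.single i 1 : Fin e → ℂ) a) : MvPolynomial (Fin e) ℂ)) (W (j 0)))).det ≠ 0
  rw [hmat]
  exact h

/-- independence on the variety -/
theorem basis_of_noRel {p : Ideal (MvPolynomial (Fin (n + 1)) ℂ)}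
    {Q : MvPolynomial (Fin (n + 1)) ℂ} {K : Type} [Field K] [Algebra ℂ K] {w : ℕ}
    {y : Fin (n + 1) → K} (hy : FunField p Q K w y) {κ : Type}
    {W : Fin (n + 1) → MvPolynomial κ ℂ} (hW : ∀ H ∈ p, aeval W H = 0)
    {j : Fin (w + 1) → Fin (n + 1)} (hj : NoRel fun l => W (j l)) :
    y (j 0) ≠ 0 ∧ IsTranscendenceBasis ℂ fun l : Fin w => y (j l.succ) / y (j 0) := by
  classical
  have hhom : ∀ (d : ℕ) (P : MvPolynomial (Fin (w + 1)) ℂ), P.IsHomogeneous d →
      aeval (fun l => y (j l)) P = 0 → P = 0 := by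
    intro d P hP h
    have h1 : rename j P ∈ p := by
      apply hy.mem _ ⟨d, hP.rename_isHomogeneous⟩
      unfold Pool.Agent.W602.GT.val
      rw [aeval_rename]
      exact h
    have h2 := hW _ h1
    rw [aeval_rename] at h2
    exact hj d P hP h2
  have hy0 : y (j 0) ≠ 0 := by
    intro h0
    have h1 := hhom 1 (X 0) (isHomogeneous_X _ _) (by rw [aeval_X]; exact h0)
    exact X_ne_zero (R := ℂ) (0 : Fin (w + 1)) h1
  refine ⟨hy0, ?_⟩
  have hind : AlgebraicIndependent ℂ fun l : Fin w => y (j l.succ) / y (j 0) := by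
    rw [algebraicIndependent_iff]
    intro P hP
    exact indep_of_hom (algebraMap ℂ K) (fun l => y (j l)) hy0 hhom P hP
  apply AlgebraicIndependent.isTranscendenceBasis_of_trdeg_le_of_finite hind
  rw [hy.sub.dim]
  simp

theorem unirational_of_jm {p : Ideal (MvPolynomial (Fin (n + 1)) ℂ)}
    {Q : MvPolynomial (Fin (n + 1)) ℂ} {K : Type} [Field K] [Algebra ℂ K] {w : ℕ}
    {y : Fin (n + 1) → K} (hy : FunField p Q K w y)
    {W : Fin (n + 1) → MvPolynomial (Fin w) ℂ} (hW : ∀ H ∈ p, aeval W H = 0)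
    {j : Fin (w + 1) → Fin (n + 1)} (h0 : eval 0 (W (j 0)) ≠ 0) (h : (jm W j).det ≠ 0) :
    Unirational y := by
  obtain ⟨hy0, hbas⟩ := basis_of_noRel hy hW (noRel_of_jm h0 h)
  exact cover_unirational (fun d H hH hH0 => hy.mem H ⟨d, hH⟩ hH0) hy0 hbas h0 (cover_of_jm hW h)

/-- the chain rule for affine substitutions -/
theorem aff_pderiv {m : ℕ} (t0 : Fin m → ℂ) (u : Fin e → Fin m → ℂ) (l : Fin e)
    (P : MvPolynomial (Fin m) ℂ) :
    eval 0 (pderiv l (aeval (fun a => C (t0 a) + ∑ i, C (u i a) * X i :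
      Fin m → MvPolynomial (Fin e) ℂ) P)) = ∑ a, eval t0 (pderiv a P) * u l a := by
  classical
  rw [der_aeval, map_sum]
  refine Finset.sum_congr rfl fun a _ => ?_
  rw [map_mul]
  congr 1
  · have h1 := MvPolynomial.comp_aeval_apply (f := (fun a => C (t0 a) + ∑ i, C (u i a) * X i :
      Fin m → MvPolynomial (Fin e) ℂ)) (aeval (0 : Fin e → ℂ)) (pderiv a P)
    refine Eq.trans h1 ?_
    rw [← aeval_eq_eval]
    congr 2
    funext b
    simp
  · simp only [map_add, map_sum, pderiv_C, pderiv_mul, pderiv_X, zero_add, zero_mul]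
    rw [Finset.sum_eq_single l]
    · simp
    · intro i _ hi
      rw [Pi.single_eq_of_ne hi]
      simp
    · intro h
      exact absurd (Finset.mem_univ l) h

theorem aff_eval {m : ℕ} (t0 : Fin m → ℂ) (u : Fin e → Fin m → ℂ)
    (P : MvPolynomial (Fin m) ℂ) :
    eval 0 (aeval (fun a => C (t0 a) + ∑ i, C (u i a) * X i :
      Fin m → MvPolynomial (Fin e) ℂ) P) = eval t0 P := by
  have h1 := MvPolynomial.comp_aeval_apply (f := (fun a => C (t0 a) + ∑ i, C (u i a) * X i :
    Fin m → MvPolynomial (Fin e) ℂ)) (aeval (0 : Fin e → ℂ)) P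
  refine Eq.trans h1 ?_
  rw [← aeval_eq_eval]
  congr 2
  funext b
  simp

theorem mkDer_eval {m : ℕ} (t0 : Fin m → ℂ) (a : Fin m → MvPolynomial (Fin m) ℂ)
    (P : MvPolynomial (Fin m) ℂ) :
    eval t0 (mkDerivation ℂ a P) = ∑ b, eval t0 (pderiv b P) * eval t0 (a b) := by
  have h1 := der_aeval (mkDerivation ℂ a) (X : Fin m → MvPolynomial (Fin m) ℂ) P
  rw [aeval_X_left_apply] at h1
  rw [h1, map_sum]
  refine Finset.sum_congr rfl fun b _ => ?_
  rw [aeval_X_left_apply, mkDerivation_X, map_mul]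

/-- **Polynomial maps of maximal rank** on unirational varieties. -/
theorem jm_of_unirational {p : Ideal (MvPolynomial (Fin (n + 1)) ℂ)}
    {Q : MvPolynomial (Fin (n + 1)) ℂ} {K : Type} [Field K] [Algebra ℂ K] {w : ℕ}
    {y : Fin (n + 1) → K} (hy : FunField p Q K w y) (h : Unirational y) :
    ∃ (W : Fin (n + 1) → MvPolynomial (Fin w) ℂ) (j : Fin (w + 1) → Fin (n + 1)),
      (∀ H : MvPolynomial (Fin (n + 1)) ℂ, Pool.Agent.W602.GT.IsForm H →
        Pool.Agent.W602.GT.val y H = 0 → aeval W H = 0) ∧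
      eval 0 (W (j 0)) ≠ 0 ∧ (jm W j).det ≠ 0 := by
  classical
  obtain ⟨m, W, hW⟩ := h
  obtain ⟨i0, hi0⟩ := Function.ne_iff.1 hy.sub.ne
  have hy0 : y i0 ≠ 0 := hi0
  obtain ⟨jj, hjj⟩ := exists_coord_basis y i0 hy0 hy.sub.gen hy.sub.dim
  let j : Fin (w + 1) → Fin (n + 1) := Fin.cons i0 jj
  have hno : NoRel fun l => W (j l) := by
    intro d P hP hP0
    have h1 : aeval W (rename j P) = 0 := by
      rw [aeval_rename]
      exact hP0
    have h2 := (hW _ ⟨d, hP.rename_isHomogeneous⟩).2 h1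
    unfold Pool.Agent.W602.GT.val at h2
    rw [aeval_rename] at h2
    exact hom_of_indep (fun l => y (j l)) hy0 hjj.1 d P hP h2
  have hW0 : W (j 0) ≠ 0 := by
    intro h0
    have h1 := hno 1 (X 0) (isHomogeneous_X _ _) (by rw [aeval_X]; exact h0)
    exact X_ne_zero (R := ℂ) (0 : Fin (w + 1)) h1
  let R := MvPolynomial (Fin m) ℂ
  let L := FractionRing R
  have hinj : Function.Injective (algebraMap R L) := IsFractionRing.injective R L
  let ω : Fin (n + 1) → L := fun i => algebraMap R L (W i)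
  have hω0 : ω (j 0) ≠ 0 := by
    intro h0
    exact hW0 (hinj (by rw [map_zero]; exact h0))
  have hind : AlgebraicIndependent ℂ fun l : Fin w => ω (j l.succ) / ω (j 0) := by
    rw [algebraicIndependent_iff]
    intro P hP
    refine indep_of_hom (algebraMap ℂ L) (fun l => ω (j l)) hω0 (fun d P hP h0 => ?_) P hP
    apply hno d P hP
    apply hinj
    rw [map_zero, ← h0]
    exact MvPolynomial.comp_aeval_apply (f := fun l => W (j l)) (IsScalarTower.toAlgHom ℂ R L) P
  -- the derivations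
  choose D hD using fun i : Fin w => Pool.Agent.H135R2.VS.exists_der hind
    (fun l => if l = i then (1 : L) else 0)
  let x : Fin m → L := fun a => algebraMap R L (X a)
  obtain ⟨q, hq⟩ := IsLocalization.exist_integer_multiples_of_finite (nonZeroDivisors R)
    (fun s : Fin w × Fin m => D s.1 (x s.2))
  choose A hA using fun (i : Fin w) (a : Fin m) => hq (i, a)
  have hq0 : (q : R) ≠ 0 := nonZeroDivisors.ne_zero q.2
  have hA' : ∀ i a, algebraMap R L (A i a) = algebraMap R L (q : R) * D i (x a) := by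
    intro i a
    rw [hA, Algebra.smul_def]
  have hx : ∀ P : R, aeval x P = algebraMap R L P := by
    intro P
    have h1 := MvPolynomial.comp_aeval_apply (f := (X : Fin m → R)) (IsScalarTower.toAlgHom ℂ R L) P
    rw [aeval_X_left_apply] at h1
    exact h1.symm
  have hder : ∀ (i : Fin w) (P : R), algebraMap R L (mkDerivation ℂ (A i) P) =
      algebraMap R L (q : R) * D i (algebraMap R L P) := by
    intro i P
    have h1 := der_aeval (mkDerivation ℂ (A i)) (X : Fin m → R) P
    rw [aeval_X_left_apply] at h1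
    have h2 := der_aeval (D i) x P
    rw [hx] at h2
    rw [h1, h2, map_sum, Finset.mul_sum]
    refine Finset.sum_congr rfl fun b _ => ?_
    rw [aeval_X_left_apply, mkDerivation_X, map_mul, hA', hx]
    ring
  let Mx : Matrix (Fin w) (Fin w) R := Matrix.of fun i l =>
    mkDerivation ℂ (A i) (W (j l.succ)) * W (j 0) - W (j l.succ) * mkDerivation ℂ (A i) (W (j 0))
  have hMx : Mx = ((q : R) * W (j 0) ^ 2) • (1 : Matrix (Fin w) (Fin w) R) := by
    refine Matrix.ext fun i l => hinj ?_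
    rw [Matrix.smul_apply, Matrix.one_apply, smul_eq_mul, mul_ite, mul_one, mul_zero]
    simp only [Mx, Matrix.of_apply, map_sub, map_mul, hder]
    have h1 : ω (j l.succ) = ω (j l.succ) / ω (j 0) * ω (j 0) := (div_mul_cancel₀ _ hω0).symm
    have h2 : D i (ω (j l.succ)) = ω (j l.succ) / ω (j 0) * D i (ω (j 0)) +
        ω (j 0) * (if l = i then 1 else 0) := by
      conv_lhs => rw [h1]
      rw [Derivation.leibniz, hD, smul_eq_mul, smul_eq_mul]
    change algebraMap R L (q : R) * D i (ω (j l.succ)) * ω (j 0) -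
      ω (j l.succ) * (algebraMap R L (q : R) * D i (ω (j 0))) = _
    rw [h2]
    by_cases hil : i = l
    · subst hil
      rw [if_pos rfl, if_pos rfl, map_mul, map_pow]
      change _ = algebraMap R L (q : R) * ω (j 0) ^ 2
      linear_combination (-(algebraMap R L (q : R) * D i (ω (j 0)))) * h1
    · rw [if_neg hil, if_neg (Ne.symm hil), map_zero]
      linear_combination (-(algebraMap R L (q : R) * D i (ω (j 0)))) * h1
  have hdet : Mx.det ≠ 0 := by
    rw [hMx, Matrix.det_smul, Matrix.det_one, mul_one]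
    exact pow_ne_zero _ (mul_ne_zero hq0 (pow_ne_zero _ hW0))
  obtain ⟨t0, ht0⟩ : ∃ t0, eval t0 (Mx.det * W (j 0)) ≠ 0 := by
    by_contra hcon
    push Not at hcon
    exact mul_ne_zero hdet hW0 (MvPolynomial.funext fun t => by rw [hcon t, map_zero])
  rw [map_mul] at ht0
  let u : Fin w → Fin m → ℂ := fun i a => eval t0 (A i a)
  let Z : Fin m → MvPolynomial (Fin w) ℂ := fun a => C (t0 a) + ∑ i, C (u i a) * X i
  have hZ : ∀ (i : Fin w) (P : R), eval 0 (pderiv i (aeval Z P)) =
      eval t0 (mkDerivation ℂ (A i) P) := fun i P => by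
    rw [mkDer_eval]
    exact aff_pderiv t0 u i P
  have hZ0 : ∀ P : R, eval 0 (aeval Z P) = eval t0 P := fun P => aff_eval t0 u P
  refine ⟨fun i => aeval Z (W i), j, fun H hH h0 => ?_, ?_, ?_⟩
  · have h1 := (hW H hH).1 h0
    have h2 := MvPolynomial.comp_aeval_apply (f := W) (aeval Z) H
    rw [h1, map_zero] at h2
    exact h2.symm
  · rw [hZ0]
    exact right_ne_zero_of_mul ht0
  · have h1 : jm (fun i => aeval Z (W i)) j = (eval t0).mapMatrix Mx := by
      ext i l
      simp only [jm, Matrix.of_apply, RingHom.mapMatrix_apply, Matrix.map_apply, Mx, map_sub,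
        map_mul, hZ, hZ0]
    rw [h1, ← RingHom.map_det]
    exact left_ne_zero_of_mul ht0

end Pool.Agent.Q40.SM
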