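import Pool.Agent.Q40.SM.Psi

/-!
Slow maps are approximated by polynomial maps, together with their derivatives.
-/

set_option autoImplicit false

namespace Pool.Agent.Q40.SM

open MvPolynomial Filter Topology Pool.Agent.Q64.FS Pool.Agent.Q64.LC

variable {d n : ℕ}

/-- restriction to the axis `l` -/
noncomputable def axis (l : Fin d) : MvPolynomial (Fin d) ℂ →ₐ[ℂ] Polynomial ℂ :=
  aeval fun a => if a = l then Polynomial.X else 0

theorem axis_eval (l : Fin d) (P : MvPolynomial (Fin d) ℂ) (ζ : ℂ) :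
    (axis l P).eval ζ = eval (Pi.single l ζ) P := by
  induction P using MvPolynomial.induction_on with
  | C a => simp [axis]
  | add p q hp hq => rw [map_add, Polynomial.eval_add, hp, hq, map_add]
  | mul_X p a hp =>
    rw [map_mul, Polynomial.eval_mul, hp, map_mul]
    congr 1
    unfold axis
    rw [aeval_X, eval_X]
    by_cases h : a = l
    · subst h
      simp
    · rw [if_neg h, Pi.single_eq_of_ne h]
      simp

theorem axis_eval_zero (l : Fin d) (P : MvPolynomial (Fin d) ℂ) :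
    (axis l P).eval 0 = eval 0 P := by
  rw [axis_eval, Pi.single_zero]

theorem axis_deriv (l : Fin d) (P : MvPolynomial (Fin d) ℂ) :
    (axis l P).derivative.eval 0 = eval 0 (pderiv l P) := by
  induction P using MvPolynomial.induction_on with
  | C a => simp [axis]
  | add p q hp hq =>
    rw [map_add, Polynomial.derivative_add, Polynomial.eval_add, hp, hq, map_add, map_add]
  | mul_X p a hp =>
    have h0 := axis_eval_zero l p
    have h1 : axis l (X a) = if a = l then Polynomial.X else 0 := by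
      unfold axis
      rw [aeval_X]
    have h2 : (axis l (X a)).eval 0 = eval 0 (X a : MvPolynomial (Fin d) ℂ) := axis_eval_zero l _
    have h3 : (axis l (X a)).derivative.eval 0 =
        eval 0 (pderiv l (X a : MvPolynomial (Fin d) ℂ)) := by
      rw [h1, pderiv_X]
      by_cases h : a = l
      · subst h
        simp
      · rw [if_neg h, Pi.single_eq_of_ne h]
        simp
    rw [map_mul, Polynomial.derivative_mul, Polynomial.eval_add, Polynomial.eval_mul,
      Polynomial.eval_mul, hp, h0, h2, h3, pderiv_mul, map_add, map_mul, map_mul]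

/-- the size of polynomials with small Newton coefficients -/
theorem npoly_small {M : ℕ} {c : (Fin d → ℕ) → Fin n → ℂ} {η : ℝ} {j : Fin n}
    (hc : ∀ i, (∀ k, i k ≤ M) → ‖c i j‖ ≤ η) {z : Fin d → ℂ} (hz : ‖z‖ ≤ M) :
    ‖eval z (npoly (Finset.Iic fun _ => M) c j)‖ ≤ ((M : ℝ) + 1) ^ (d * (M + 1)) * η := by
  classical
  have hM0 : (0 : ℝ) ≤ M := Nat.cast_nonneg M
  have hη : 0 ≤ η := (norm_nonneg _).trans (hc 0 fun k => Nat.zero_le _)
  unfold npoly
  rw [map_sum]
  have h1 : ∀ i ∈ Finset.Iic (fun _ : Fin d => M), ‖eval z (MvPolynomial.C (c i j) * bpm ℂ i)‖ ≤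
      η * ((M : ℝ) + 1) ^ (d * M) := by
    intro i hi
    rw [Finset.mem_Iic] at hi
    rw [map_mul, eval_C, bpm_bt, norm_mul]
    refine mul_le_mul (hc i hi) ?_ (norm_nonneg _) hη
    unfold bt
    rw [norm_prod]
    have h2 : ∀ k ∈ (Finset.univ : Finset (Fin d)), ‖(bp ℂ (i k)).eval (z k)‖ ≤
        ((M : ℝ) + 1) ^ M := by
      intro k _
      refine (bp_bound _ _).trans ?_
      have h3 := norm_le_pi_norm z k
      calc (‖z k‖ + 1) ^ i k ≤ ((M : ℝ) + 1) ^ i k :=
            pow_le_pow_left₀ (by positivity) (by linarith) _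
        _ ≤ ((M : ℝ) + 1) ^ M := pow_le_pow_right₀ (by linarith) (hi k)
    refine (Finset.prod_le_prod (fun k _ => norm_nonneg _) h2).trans (le_of_eq ?_)
    rw [Finset.prod_const, Finset.card_univ, Fintype.card_fin, ← pow_mul, mul_comm M d]
  refine (norm_sum_le_of_le _ h1).trans ?_
  rw [Finset.sum_const, nsmul_eq_mul, iic_pi, Fintype.card_piFinset_const]
  have h2 : (Finset.Iic M).card = M + 1 := by
    have h3 : Finset.Iic M = Finset.range (M + 1) := by
      ext t
      rw [Finset.mem_Iic, Finset.mem_range, Nat.lt_succ_iff]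
    rw [h3, Finset.card_range]
  rw [h2]
  have h3 : d * (M + 1) = d + d * M := by ring
  rw [h3, pow_add]
  push_cast
  exact le_of_eq (by ring)

/-- **Approximation.** -/
theorem approx {V : Set (MvPolynomial (Fin n) ℂ)} {f : (Fin d → ℂ) → Fin n → ℂ}
    (herr : ∀ᶠ M : ℕ in atTop, ∀ z, ‖z‖ ≤ M → ∀ j,
      ‖f z j - eval z (npoly (Finset.Iic fun _ => M) (ncf (vals f)) j)‖ ≤ 1 / ((M : ℝ) + 1))
    (hnear : ∃ M₀ : ℕ, ∀ M, M₀ ≤ M → ∃ c : (Fin d → ℕ) → Fin n → ℂ, Lv V M c ∧
      ∀ i, (∀ k, i k ≤ M) → ∀ j, ‖c i j - ncf (vals f) i j‖ ≤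
        1 / (((M : ℝ) + 1) * ((M : ℝ) + 1) ^ (d * (M + 1)))) :
    ∀ᶠ M : ℕ in atTop, ∃ W : Fin n → MvPolynomial (Fin d) ℂ, (∀ P ∈ V, aeval W P = 0) ∧
      (∀ j k, degreeOf k (W j) ≤ M) ∧
      ∀ z, ‖z‖ ≤ M → ∀ j, ‖f z j - eval z (W j)‖ ≤ 2 / ((M : ℝ) + 1) := by
  classical
  obtain ⟨M₀, hM₀⟩ := hnear
  filter_upwards [herr, eventually_ge_atTop M₀] with M h1 h2
  obtain ⟨c, hc, hcn⟩ := hM₀ M h2
  refine ⟨npoly (Finset.Iic fun _ => M) c, hc.eqs, fun j k =>
    npoly_degreeOf (fun i hi k => (Finset.mem_Iic.1 hi) k) c j k, fun z hz j => ?_⟩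
  have h3 := npoly_small (c := fun i j => c i j - ncf (vals f) i j) (fun i hi => hcn i hi j) hz
  have h4 : eval z (npoly (Finset.Iic fun _ => M) (fun i j => c i j - ncf (vals f) i j) j) =
      eval z (npoly (Finset.Iic fun _ => M) c j) -
        eval z (npoly (Finset.Iic fun _ => M) (ncf (vals f)) j) := by
    unfold npoly
    rw [map_sum, map_sum, map_sum, ← Finset.sum_sub_distrib]
    refine Finset.sum_congr rfl fun i _ => ?_
    rw [map_mul, map_mul, map_mul, eval_C, eval_C, eval_C]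
    ring
  rw [h4] at h3
  have h5 : ((M : ℝ) + 1) ^ (d * (M + 1)) * (1 / (((M : ℝ) + 1) * ((M : ℝ) + 1) ^ (d * (M + 1)))) =
      1 / ((M : ℝ) + 1) := by
    have h6 : ((M : ℝ) + 1) ≠ 0 := by positivity
    field_simp
  rw [h5] at h3
  have h6 : f z j - eval z (npoly (Finset.Iic fun _ => M) c j) =
      (f z j - eval z (npoly (Finset.Iic fun _ => M) (ncf (vals f)) j)) -
        (eval z (npoly (Finset.Iic fun _ => M) c j) -
          eval z (npoly (Finset.Iic fun _ => M) (ncf (vals f)) j)) := by ring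
  rw [h6]
  refine (norm_sub_le _ _).trans ?_
  have h7 : 2 / ((M : ℝ) + 1) = 1 / ((M : ℝ) + 1) + 1 / ((M : ℝ) + 1) := by ring
  rw [h7]
  exact add_le_add (h1 z hz j) h3

theorem norm_single' (l : Fin d) (ζ : ℂ) : ‖(Pi.single l ζ : Fin d → ℂ)‖ = ‖ζ‖ := Pi.norm_single _

theorem diff_single (l : Fin d) : Differentiable ℂ fun ζ : ℂ => (Pi.single l ζ : Fin d → ℂ) := by
  rw [differentiable_pi]
  intro k
  by_cases hk : k = l
  · subst hk
    simp only [Pi.single_eq_same]
    exact differentiable_id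
  · simp only [Pi.single_eq_of_ne hk]
    exact differentiable_const _

/-- the derivatives are close -/
theorem deriv_close {f : (Fin d → ℂ) → Fin n → ℂ} (hf : Differentiable ℂ f)
    {W : Fin n → MvPolynomial (Fin d) ℂ} {δ : ℝ}
    (h : ∀ z, ‖z‖ ≤ 1 → ∀ j, ‖f z j - eval z (W j)‖ ≤ δ) (l : Fin d) (j : Fin n) :
    ‖deriv (fun ζ : ℂ => f (Pi.single l ζ) j) 0 - eval 0 (pderiv l (W j))‖ ≤ δ := by
  have h1 : Differentiable ℂ fun ζ : ℂ => f (Pi.single l ζ) j :=
    (differentiable_pi.1 (hf.comp (diff_single l))) j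
  have h2 : Differentiable ℂ fun ζ : ℂ => (axis l (W j)).eval ζ := (axis l (W j)).differentiable
  have h3 := Complex.norm_deriv_le_of_forall_mem_sphere_norm_le (c := 0) (R := 1)
    (C := δ) (f := fun ζ : ℂ => f (Pi.single l ζ) j - (axis l (W j)).eval ζ) one_pos
    (h1.sub h2).diffContOnCl (fun ζ hζ => by
      rw [mem_sphere_zero_iff_norm] at hζ
      rw [axis_eval]
      exact h _ (by rw [norm_single', hζ]) j)
  rw [div_one] at h3
  have h4 : deriv (fun ζ : ℂ => f (Pi.single l ζ) j - (axis l (W j)).eval ζ) 0 =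
      deriv (fun ζ : ℂ => f (Pi.single l ζ) j) 0 - eval 0 (pderiv l (W j)) := by
    rw [← axis_deriv]
    have h5 := (h1 0).hasDerivAt.sub ((axis l (W j)).hasDerivAt 0)
    exact h5.deriv
  rw [h4] at h3
  exact h3

end Pool.Agent.Q40.SM
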