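import Pool.Agent.Q40.SM.Drv
import Pool.Agent.Q64.FS.Sur
import Pool.Agent.Q33.UR.Ent
import Pool.Agent.H135R2.VS.Der

/-!
Polynomial maps near slow maps.
-/

set_option autoImplicit false

namespace Pool.Agent.Q40.SM

open MvPolynomial Filter Topology Pool.Agent.Q64.FS Pool.Agent.Q64.LC Pool.Agent.TH143.GT
  Pool.Agent.W602.GT Pool.Agent.Q33.UR

variable {d n e : ℕ}

/-- At the point `z` the ratios `f (j 1) / f (j 0), …, f (j e) / f (j 0)` of coordinates of the map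
`f` have independent differentials. -/
def RankAt (f : (Fin d → ℂ) → Fin (n + 1) → ℂ) (j : Fin (e + 1) → Fin (n + 1)) (z : Fin d → ℂ) :
    Prop :=
  f z (j 0) ≠ 0 ∧ ∃ v : Fin e → Fin d → ℂ, (Matrix.of fun i l : Fin e =>
    fderiv ℂ f z (v i) (j l.succ) * f z (j 0) -
      f z (j l.succ) * fderiv ℂ f z (v i) (j 0)).det ≠ 0

/-- the Jacobian matrix in homogeneous coordinates at the origin -/
noncomputable def jm (W : Fin (n + 1) → MvPolynomial (Fin e) ℂ) (j : Fin (e + 1) → Fin (n + 1)) :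
    Matrix (Fin e) (Fin e) ℂ :=
  Matrix.of fun i l : Fin e => eval 0 (pderiv i (W (j l.succ))) * eval 0 (W (j 0)) -
    eval 0 (W (j l.succ)) * eval 0 (pderiv i (W (j 0)))

theorem noRel_of_jm {W : Fin (n + 1) → MvPolynomial (Fin e) ℂ} {j : Fin (e + 1) → Fin (n + 1)}
    (h0 : eval 0 (W (j 0)) ≠ 0) (h : (jm W j).det ≠ 0) : NoRel fun l => W (j l) := by
  intro d P hP hP0
  apply jac (fun l => W (j l)) (fun i => pderiv i) _ _ d P hP hP0
  · intro h1
    apply h0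
    rw [h1, map_zero]
  · intro h1
    apply h
    have h2 := congrArg (eval (0 : Fin e → ℂ)) h1
    rw [map_zero, RingHom.map_det] at h2
    rw [← h2]
    congr 1
    ext i l
    simp only [jm, RingHom.mapMatrix_apply, Matrix.map_apply, Matrix.of_apply, map_sub, map_mul]

theorem exists_scale (v : Fin e → Fin d → ℂ) :
    ∃ c : ℂ, c ≠ 0 ∧ ∑ i, ‖c • v i‖ ≤ 1 / 2 := by
  have h1 : 0 < 2 * (1 + ∑ i, ‖v i‖) := by
    have := Finset.sum_nonneg fun i (_ : i ∈ Finset.univ) => norm_nonneg (v i)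
    linarith
  refine ⟨(((2 * (1 + ∑ i, ‖v i‖))⁻¹ : ℝ) : ℂ), ?_, ?_⟩
  · exact_mod_cast (inv_ne_zero h1.ne')
  · have h2 : ∀ i, ‖((((2 * (1 + ∑ i, ‖v i‖))⁻¹ : ℝ) : ℂ)) • v i‖ =
        (2 * (1 + ∑ i, ‖v i‖))⁻¹ * ‖v i‖ := by
      intro i
      rw [norm_smul, Complex.norm_real, Real.norm_of_nonneg (inv_nonneg.2 h1.le)]
    rw [Finset.sum_congr rfl fun i _ => h2 i, ← Finset.mul_sum, inv_mul_le_iff₀ h1]
    linarith

/-- **Approximation of slow maps by polynomial maps.** -/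
theorem core (k : Subfield ℂ) [Countable k] :
    ∃ Ψ : ℝ → ℝ, SuperPoly Ψ ∧ Monotone Ψ ∧ (∀ r, 1 ≤ Ψ r) ∧
      ∀ (n : ℕ) (p : Ideal (MvPolynomial (Fin (n + 1)) ℂ)), OverK k p →
      ∀ (d : ℕ) (f : (Fin d → ℂ) → Fin (n + 1) → ℂ), Differentiable ℂ f →
        (∀ z, ∀ H ∈ p, eval (f z) H = 0) → Slow Ψ f →
        ∀ᶠ M : ℕ in atTop, ∃ W : Fin (n + 1) → MvPolynomial (Fin d) ℂ,
          (∀ H ∈ p, aeval W H = 0) ∧ (∀ j k, degreeOf k (W j) ≤ M) ∧
          ∀ z, ‖z‖ ≤ M → ∀ j, ‖f z j - eval z (W j)‖ ≤ 2 / ((M : ℝ) + 1) := by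
  classical
  let J : Type := Σ n : ℕ, Finset (MvPolynomial (Fin (n + 1)) k) × ℕ
  have hJ : Countable J := by
    have h1 : ∀ n, Countable (MvPolynomial (Fin n) k) := fun n => countable_mv n
    infer_instance
  let V : ∀ q : J, Set (MvPolynomial (Fin (q.1 + 1)) ℂ) := fun q =>
    (q.2.1.image (MvPolynomial.map k.subtype) : Finset (MvPolynomial (Fin (q.1 + 1)) ℂ))
  have key : ∀ q : J, ∃ ε : ℕ → ℝ, (∀ s, 0 < ε s) ∧
      ∀ b : (Fin q.2.2 → ℕ) → Fin (q.1 + 1) → ℂ, FlatC ε b →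
      (∀ m, ∀ P ∈ V q, eval (nval b m) P = 0) →
      ∃ M₀ : ℕ, ∀ M, M₀ ≤ M → ∃ c : (Fin q.2.2 → ℕ) → Fin (q.1 + 1) → ℂ, Lv (V q) M c ∧
        ∀ i, (∀ k, i k ≤ M) → ∀ j, ‖c i j - b i j‖ ≤
          1 / (((M : ℝ) + 1) * ((M : ℝ) + 1) ^ (q.2.2 * (M + 1))) := by
    intro q
    exact near_all (V := V q) (D := max 1
      ((q.2.1.image (MvPolynomial.map k.subtype)).sup totalDegree)) (le_max_left _ _)
      (fun P hP => (Finset.le_sup (f := totalDegree) (Finset.mem_coe.1 hP)).trans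
        (le_max_right _ _)) q.2.2
      (η := fun M => 1 / (((M : ℝ) + 1) * ((M : ℝ) + 1) ^ (q.2.2 * (M + 1))))
      (fun M => by positivity)
  choose ε0 hε0 hkey using key
  obtain ⟨ε, hε, hbel⟩ := exists_below ε0 hε0
  obtain ⟨Ψ, hΨ, hmon, hone, hflat⟩ := flat_of_slow hε
  refine ⟨Ψ, hΨ, hmon, hone, fun n p hp d f hf hX hslow => ?_⟩
  obtain ⟨S, rfl⟩ := exists_idx hp
  obtain ⟨h1, h2⟩ := hflat (n + 1) d f hf hslow
  let q : J := ⟨n, S, d⟩
  obtain ⟨s₁, hs₁⟩ := hbel q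
  have h3 := hkey q (ncf (vals f)) (h1.mono s₁ hs₁) (by
    intro m P hP
    rw [nval_ncf]
    obtain ⟨P₀, hP₀, rfl⟩ := Finset.mem_image.1 (Finset.mem_coe.1 hP)
    exact hX _ _ (Ideal.subset_span ⟨P₀, hP₀, rfl⟩))
  filter_upwards [approx h2 h3] with M hM
  obtain ⟨W, hW1, hW2, hW3⟩ := hM
  refine ⟨W, fun H hH => ?_, hW2, hW3⟩
  have hle : Ideal.span (MvPolynomial.map k.subtype '' (S : Set (MvPolynomial (Fin (n + 1)) k))) ≤
      RingHom.ker (aeval W : MvPolynomial (Fin (n + 1)) ℂ →ₐ[ℂ] MvPolynomial (Fin d) ℂ) := by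
    refine Ideal.span_le.2 ?_
    rintro _ ⟨P, hP, rfl⟩
    exact hW1 _ (Finset.mem_coe.2 (Finset.mem_image_of_mem _ (Finset.mem_coe.1 hP)))
  exact hle hH

/-- the approximation property of the growth function `Ψ` for the variety with the ideal `p` -/
def Apx (Ψ : ℝ → ℝ) (p : Ideal (MvPolynomial (Fin (n + 1)) ℂ)) : Prop :=
  ∀ (d : ℕ) (f : (Fin d → ℂ) → Fin (n + 1) → ℂ), Differentiable ℂ f →
    (∀ z, ∀ H ∈ p, eval (f z) H = 0) → Slow Ψ f →
    ∀ᶠ M : ℕ in atTop, ∃ W : Fin (n + 1) → MvPolynomial (Fin d) ℂ,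
      (∀ H ∈ p, aeval W H = 0) ∧ (∀ j k, degreeOf k (W j) ≤ M) ∧
      ∀ z, ‖z‖ ≤ M → ∀ j, ‖f z j - eval z (W j)‖ ≤ 2 / ((M : ℝ) + 1)

/-- **Polynomial maps near slow maps.** -/
theorem Apx.rank {Ψ : ℝ → ℝ} (hmon : Monotone Ψ) (hone : ∀ r, 1 ≤ Ψ r)
    {p : Ideal (MvPolynomial (Fin (n + 1)) ℂ)} (hap : Apx Ψ p)
    {f : (Fin d → ℂ) → Fin (n + 1) → ℂ} {j : Fin (e + 1) → Fin (n + 1)}
    {z0 : Fin d → ℂ} (hf : Differentiable ℂ f) (hX : ∀ z, ∀ H ∈ p, eval (f z) H = 0)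
    (hslow : Slow Ψ f) (hrank : RankAt f j z0) {δ : ℝ} (hδ : 0 < δ) :
    ∃ W : Fin (n + 1) → MvPolynomial (Fin e) ℂ,
      (∀ H ∈ p, aeval W H = 0) ∧ (∀ i, ‖eval 0 (W i) - f z0 i‖ ≤ δ) ∧
      eval 0 (W (j 0)) ≠ 0 ∧ (jm W j).det ≠ 0 := by
  classical
  obtain ⟨hz0, v, hdet⟩ := hrank
  obtain ⟨c, hc, hcv⟩ := exists_scale v
  let g : (Fin e → ℂ) → Fin (n + 1) → ℂ := fun t => f (z0 + ∑ i, t i • (c • v i))
  have hg : Differentiable ℂ g := by
    apply hf.comp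
    apply Differentiable.const_add
    apply Differentiable.fun_sum
    intro i _
    exact (differentiable_apply i).smul_const _
  have hgs : Slow Ψ g := hslow.comp hmon hone hf.continuous z0 (fun i => c • v i) hcv
  obtain ⟨W, hW⟩ := (hap e g hg (fun z => hX _) hgs).choice
  have ht2 : Tendsto (fun M : ℕ => 2 / ((M : ℝ) + 1)) atTop (𝓝 0) := by
    have h1 := (tendsto_one_div_add_atTop_nhds_zero_nat (𝕜 := ℝ)).const_mul 2
    rw [mul_zero] at h1
    refine h1.congr fun M => ?_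
    ring
  have hW2 : ∀ i, Tendsto (fun M => eval 0 (W M i)) atTop (𝓝 (g 0 i)) := by
    intro i
    rw [tendsto_iff_norm_sub_tendsto_zero]
    refine squeeze_zero' (Eventually.of_forall fun M => norm_nonneg _) ?_ ht2
    filter_upwards [hW] with M hM
    rw [norm_sub_rev]
    refine hM.2.2 0 ?_ i
    rw [norm_zero]
    exact Nat.cast_nonneg M
  have hW3 : ∀ l i, Tendsto (fun M => eval 0 (pderiv l (W M i))) atTop
      (𝓝 (deriv (fun ζ : ℂ => g (Pi.single l ζ) i) 0)) := by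
    intro l i
    rw [tendsto_iff_norm_sub_tendsto_zero]
    refine squeeze_zero' (Eventually.of_forall fun M => norm_nonneg _) ?_ ht2
    filter_upwards [hW, eventually_ge_atTop 1] with M hM hM1
    rw [norm_sub_rev]
    refine deriv_close hg (fun z hz j => hM.2.2 z (hz.trans ?_) j) l i
    exact_mod_cast hM1
  have hg0 : g 0 = f z0 := by
    simp only [g]
    simp
  have hder : ∀ (l : Fin e) (i : Fin (n + 1)),
      deriv (fun ζ : ℂ => g (Pi.single l ζ) i) 0 = c * fderiv ℂ f z0 (v l) i := by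
    intro l i
    have h4 : (fun ζ : ℂ => g (Pi.single l ζ) i) = fun ζ => f (z0 + ζ • (c • v l)) i := by
      funext ζ
      simp only [g]
      congr 2
      rw [Finset.sum_eq_single l]
      · rw [Pi.single_eq_same]
      · intro k _ hk
        rw [Pi.single_eq_of_ne hk, zero_smul]
      · intro h
        exact absurd (Finset.mem_univ l) h
    have h5 : HasDerivAt (fun ζ : ℂ => z0 + ζ • (c • v l)) (c • v l) 0 := by
      have h6 := ((hasDerivAt_id (0 : ℂ)).smul_const (c • v l)).const_add z0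
      rw [one_smul] at h6
      exact h6
    have h6 : HasFDerivAt f (fderiv ℂ f z0) (z0 + (0 : ℂ) • (c • v l)) := by
      rw [zero_smul, add_zero]
      exact (hf z0).hasFDerivAt
    have h7 := h6.comp_hasDerivAt (0 : ℂ) h5
    have h8 := (hasDerivAt_pi.1 h7) i
    rw [h4]
    have h9 := h8.deriv
    rw [map_smul, Pi.smul_apply, smul_eq_mul] at h9
    exact h9
  -- the limit of the Jacobian matrices
  have hjm : Tendsto (fun M => jm (W M) j) atTop (𝓝 (c • Matrix.of fun i l : Fin e =>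
      fderiv ℂ f z0 (v i) (j l.succ) * f z0 (j 0) -
        f z0 (j l.succ) * fderiv ℂ f z0 (v i) (j 0))) := by
    refine tendsto_pi_nhds.2 fun i => tendsto_pi_nhds.2 fun l => ?_
    have h4 := ((hW3 i (j l.succ)).mul (hW2 (j 0))).sub ((hW2 (j l.succ)).mul (hW3 i (j 0)))
    rw [hder, hder, hg0] at h4
    have h5 : (c • Matrix.of fun i l : Fin e => fderiv ℂ f z0 (v i) (j l.succ) * f z0 (j 0) -
        f z0 (j l.succ) * fderiv ℂ f z0 (v i) (j 0)) i l =
        c * fderiv ℂ f z0 (v i) (j l.succ) * f z0 (j 0) -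
          f z0 (j l.succ) * (c * fderiv ℂ f z0 (v i) (j 0)) := by
      rw [Matrix.smul_apply, Matrix.of_apply, smul_eq_mul]
      ring
    rw [h5]
    exact h4
  have hdet2 : ∀ᶠ M in atTop, (jm (W M) j).det ≠ 0 := by
    have h4 : Tendsto (fun M => (jm (W M) j).det) atTop _ :=
      (Continuous.matrix_det continuous_id).continuousAt.tendsto.comp hjm
    refine h4.eventually_ne ?_
    rw [id, Matrix.det_smul]
    exact mul_ne_zero (pow_ne_zero _ hc) hdet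
  have h0 : ∀ᶠ M in atTop, eval 0 (W M (j 0)) ≠ 0 := by
    refine (hW2 (j 0)).eventually_ne ?_
    rw [hg0]
    exact hz0
  have hcl : ∀ᶠ M in atTop, ∀ i, ‖eval 0 (W M i) - f z0 i‖ ≤ δ := by
    rw [Filter.eventually_all]
    intro i
    have h4 := (hW2 i).sub_const (f z0 i)
    rw [hg0, sub_self] at h4
    have h5 := h4.norm
    rw [norm_zero] at h5
    filter_upwards [h5.eventually_lt_const hδ] with M hM
    exact hM.le
  obtain ⟨M, g1, g2, g3, g4⟩ := (hW.and (hdet2.and (h0.and hcl))).exists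
  exact ⟨W M, g1.1, g4, g3, g2⟩

end Pool.Agent.Q40.SM
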