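import Pool.Agent.Q40.SM.Arr

/-!
Arrays of complex numbers with small Newton coefficients are close to polynomial arrays.
-/

set_option autoImplicit false

namespace Pool.Agent.Q40.SM

open MvPolynomial Filter Topology Pool.Agent.Q64.FS

variable {d n : ℕ}

/-- Newton coefficients of polynomial arrays of degree at most `M` satisfying the equations `V` -/
structure Lv (V : Set (MvPolynomial (Fin n) ℂ)) (M : ℕ) (c : (Fin d → ℕ) → Fin n → ℂ) : Prop where
  sup : ∀ i, ¬ (∀ k, i k ≤ M) → c i = 0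
  eqs : ∀ P ∈ V, aeval (npoly (Finset.Iic fun _ => M) c) P = 0

/-- **Closeness.** -/
theorem near {V : Set (MvPolynomial (Fin n) ℂ)} {D : ℕ} (hD : 1 ≤ D)
    (hV : ∀ P ∈ V, P.totalDegree ≤ D) (d M : ℕ) {η : ℝ} (hη : 0 < η) :
    ∃ ε : ℝ, 0 < ε ∧ ∀ b : (Fin d → ℕ) → Fin n → ℂ,
      (∀ i, (∀ k, i k ≤ M) → ∀ j, ‖b i j‖ ≤ M) →
      (∀ i, (∀ k, i k ≤ D * M) → (∃ k, M < i k) → ∀ j, ‖b i j‖ ≤ ε) →
      (∀ m, (∀ k, m k ≤ D * M) → ∀ P ∈ V, eval (nval b m) P = 0) →
      ∃ c, Lv V M c ∧ ∀ i, (∀ k, i k ≤ M) → ∀ j, ‖c i j - b i j‖ ≤ η := by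
  classical
  by_contra hcon
  push Not at hcon
  have hMD : M ≤ D * M := Nat.le_mul_of_pos_left M hD
  have hk : ∀ t : ℕ, (0 : ℝ) < 1 / ((t : ℝ) + 1) := fun t => by positivity
  choose b h2 h3 h4 h6 using fun t : ℕ => hcon _ (hk t)
  have hball : ∀ r : ℝ, IsCompact {x : ℂ | ‖x‖ ≤ r} := by
    intro r
    have h1 : {x : ℂ | ‖x‖ ≤ r} = Metric.closedBall 0 r := by
      ext x
      rw [mem_closedBall_zero_iff]
      rfl
    rw [h1]
    exact isCompact_closedBall _ _
  -- the compact sets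
  let S : (Fin d → ℕ) → Set ℂ := fun i => if ∀ k, i k ≤ M then {x : ℂ | ‖x‖ ≤ M} else
    if ∀ k, i k ≤ D * M then {x : ℂ | ‖x‖ ≤ 1} else {0}
  have hS : ∀ i, IsCompact (S i) := by
    intro i
    simp only [S]
    split_ifs
    · exact hball _
    · exact hball _
    · exact isCompact_singleton
  let K : Set ((Fin d → ℕ) → Fin n → ℂ) := {c | ∀ i, c i ∈ {u : Fin n → ℂ | ∀ j, u j ∈ S i}}
  have hK : IsCompact K := isCompact_pi_infinite fun i => isCompact_pi_infinite fun _ => hS i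
  let c : ℕ → (Fin d → ℕ) → Fin n → ℂ := fun t i => if ∀ k, i k ≤ D * M then b t i else 0
  have hcv : ∀ t (m : Fin d → ℕ), (∀ k, m k ≤ D * M) → nval (c t) m = nval (b t) m := by
    intro t m hm
    funext j
    unfold nval
    refine Finset.sum_congr rfl fun i hi => ?_
    rw [Finset.mem_Iic] at hi
    simp only [c]
    rw [if_pos fun k => (hi k).trans (hm k)]
  have hcK : ∀ t, c t ∈ K := by
    intro t i j
    simp only [S, c]
    split_ifs with g1 g2 g2
    · exact h2 t i g1 j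
    · exact absurd (fun k => (g1 k).trans hMD) g2
    · refine (h3 t i g2 ?_ j).trans ?_
      · by_contra g3
        push Not at g3
        exact g1 g3
      · rw [div_le_one (by positivity)]
        have : (0 : ℝ) ≤ t := Nat.cast_nonneg t
        linarith
    · rfl
  let U : Ultrafilter ℕ := hyperfilter ℕ
  have hU : (U : Filter ℕ) ≤ atTop := Nat.hyperfilter_le_atTop
  obtain ⟨a, haK, ha⟩ := hK.ultrafilter_le_nhds (U.map c) (by
    rw [le_principal_iff, Ultrafilter.mem_coe, Ultrafilter.mem_map]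
    exact Filter.mem_of_superset Filter.univ_mem fun t _ => hcK t)
  have ha' : Tendsto c U (𝓝 a) := ha
  have hco : ∀ i j, Tendsto (fun t => c t i j) U (𝓝 (a i j)) := by
    intro i j
    have h7 : Continuous fun c : (Fin d → ℕ) → Fin n → ℂ => c i j :=
      (continuous_apply j).comp (continuous_apply i)
    exact (h7.tendsto a).comp ha'
  have hnv : ∀ m, Tendsto (fun t => nval (c t) m) U (𝓝 (nval a m)) := fun m =>
    ((continuous_nval m).tendsto a).comp ha'
  have ha0 : ∀ i : Fin d → ℕ, (∃ k, M < i k) → a i = 0 := by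
    intro i hM
    by_cases hi : ∀ k, i k ≤ D * M
    · funext j
      have h7 : Tendsto (fun t => c t i j) U (𝓝 0) := by
        refine squeeze_zero_norm (a := fun t : ℕ => 1 / ((t : ℝ) + 1)) (fun t => ?_)
          (tendsto_one_div_add_atTop_nhds_zero_nat.mono_left hU)
        simp only [c]
        rw [if_pos hi]
        exact h3 t i hi hM j
      exact tendsto_nhds_unique (hco i j) h7
    · funext j
      have h7 := haK i j
      simp only [S] at h7
      rw [if_neg (fun h => hi fun k => (h k).trans hMD), if_neg hi] at h7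
      exact h7
  have hlev : Lv V M a := by
    refine ⟨fun i hi => ?_, fun P hP => ?_⟩
    · push Not at hi
      exact ha0 i hi
    · refine npoly_mem (fun i _ hM => ha0 i hM) (hV P hP) fun m hm => ?_
      have h7 : Tendsto (fun t => eval (nval (c t) m) P) U (𝓝 (eval (nval a m) P)) :=
        ((MvPolynomial.continuous_eval P).tendsto _).comp (hnv m)
      have h8 : ∀ t, eval (nval (c t) m) P = 0 := by
        intro t
        rw [hcv t m hm]
        exact h4 t m hm P hP
      simp only [h8] at h7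
      exact tendsto_nhds_unique h7 tendsto_const_nhds
  -- closeness
  have hev : ∀ᶠ t in (U : Filter ℕ), ∀ i ∈ Finset.Iic (fun _ : Fin d => M), ∀ j,
      ‖a i j - b t i j‖ ≤ η := by
    rw [Filter.eventually_all_finset]
    intro i hi
    rw [Finset.mem_Iic] at hi
    rw [Filter.eventually_all]
    intro j
    have h7 := (hco i j).const_sub (a i j)
    rw [sub_self] at h7
    have h8 := h7.norm
    rw [norm_zero] at h8
    filter_upwards [h8.eventually_lt_const hη] with t ht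
    simp only [c] at ht
    rw [if_pos (fun k => (hi k).trans hMD)] at ht
    exact ht.le
  obtain ⟨t, ht⟩ := hev.exists
  obtain ⟨i, hi, j, hij⟩ := h6 t a hlev
  exact absurd (ht i (Finset.mem_Iic.2 hi) j) (not_le.2 hij)

/-- **Flat arrays are near to polynomial arrays.** -/
theorem near_all {V : Set (MvPolynomial (Fin n) ℂ)} {D : ℕ} (hD : 1 ≤ D)
    (hV : ∀ P ∈ V, P.totalDegree ≤ D) (d : ℕ) {η : ℕ → ℝ} (hη : ∀ M, 0 < η M) :
    ∃ ε : ℕ → ℝ, (∀ s, 0 < ε s) ∧ ∀ b : (Fin d → ℕ) → Fin n → ℂ, FlatC ε b →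
      (∀ m, ∀ P ∈ V, eval (nval b m) P = 0) →
      ∃ M₀, ∀ M, M₀ ≤ M → ∃ c, Lv V M c ∧ ∀ i, (∀ k, i k ≤ M) → ∀ j, ‖c i j - b i j‖ ≤ η M := by
  classical
  choose e he hmain using fun M => near hD hV d M (hη M)
  let ε : ℕ → ℝ := fun s => min 1 ((Finset.range (s + 1)).inf' ⟨0, by simp⟩ e)
  have hε : ∀ s, 0 < ε s := fun s => lt_min one_pos ((Finset.lt_inf'_iff _).2 fun M _ => he M)
  have hε' : ∀ M s, M ≤ s → ε s ≤ e M := fun M s h => (min_le_right _ _).trans
    (Finset.inf'_le _ (Finset.mem_range.2 (Nat.lt_succ_of_le h)))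
  refine ⟨ε, hε, fun b hb hbV => ?_⟩
  obtain ⟨s₀, hs₀⟩ := hb
  obtain ⟨N0, hN0⟩ : ∃ N0 : ℕ, ∀ i ∈ Finset.Iic (fun _ : Fin d => s₀), ∀ l, ‖b i l‖ ≤ N0 := by
    obtain ⟨N0, hN0⟩ := exists_nat_ge (∑ i ∈ Finset.Iic (fun _ : Fin d => s₀), ∑ l, ‖b i l‖)
    refine ⟨N0, fun i hi l => le_trans ?_ hN0⟩
    refine le_trans ?_ (Finset.single_le_sum
      (f := fun i => ∑ l, ‖b i l‖) (fun i _ => Finset.sum_nonneg fun l _ => norm_nonneg _) hi)
    exact Finset.single_le_sum (f := fun l => ‖b i l‖) (fun l _ => norm_nonneg _)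
      (Finset.mem_univ l)
  refine ⟨max s₀ (max N0 1), fun M hM => ?_⟩
  have m1 : s₀ ≤ M := (le_max_left _ _).trans hM
  have m2 : N0 ≤ M := (le_max_left _ _).trans ((le_max_right _ _).trans hM)
  have m3 : 1 ≤ M := (le_max_right _ _).trans ((le_max_right _ _).trans hM)
  refine hmain M b (fun i _ l => ?_) (fun i _ hi l => ?_) (fun m _ P hP => hbV m P hP)
  · rcases le_or_gt s₀ (mx i) with h | h
    · refine (hs₀ i h l).trans ((min_le_left _ _).trans ?_)
      exact_mod_cast m3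
    · refine (hN0 i (Finset.mem_Iic.2 fun k => (le_mx i k).trans h.le) l).trans ?_
      exact_mod_cast m2
  · obtain ⟨k, hk⟩ := hi
    have h1 : M < mx i := hk.trans_le (le_mx i k)
    exact (hs₀ i (m1.trans h1.le) l).trans (hε' M _ h1.le)

end Pool.Agent.Q40.SM
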