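import Pool.Agent.Q64.FS.Cls

/-!
Differences of entire functions of slow growth at the natural numbers.
-/

set_option autoImplicit false

namespace Pool.Agent.Q40.SM

open Filter Topology Pool.Agent.Q64.FS

/-- the `s`-th difference at zero -/
noncomputable def dd (u : ℕ → ℂ) (s : ℕ) : ℂ := (fwdDiff 1)^[s] u 0

theorem dd_eq (u : ℕ → ℂ) (s : ℕ) :
    dd u s = ∑ t ∈ Finset.range (s + 1), ((-1 : ℂ) ^ (s - t) * (s.choose t : ℂ)) * u t := by
  unfold dd
  rw [fwdDiff_iter_eq_sum_shift]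
  refine Finset.sum_congr rfl fun t _ => ?_
  rw [zero_add, smul_eq_mul, mul_one, zsmul_eq_mul]
  push_cast
  rfl

theorem norm_dd_le {u : ℕ → ℂ} {s : ℕ} {B : ℝ} (h : ∀ t, t ≤ s → ‖u t‖ ≤ B) :
    ‖dd u s‖ ≤ 2 ^ s * B := by
  rw [dd_eq]
  refine (norm_sum_le _ _).trans ?_
  have h1 : ∀ t ∈ Finset.range (s + 1), ‖((-1 : ℂ) ^ (s - t) * (s.choose t : ℂ)) * u t‖ ≤
      (s.choose t : ℝ) * B := by
    intro t ht
    rw [norm_mul, norm_mul, norm_pow, norm_neg, norm_one, one_pow, one_mul, Complex.norm_natCast]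
    exact mul_le_mul_of_nonneg_left (h t (Nat.lt_succ_iff.1 (Finset.mem_range.1 ht)))
      (Nat.cast_nonneg _)
  refine (Finset.sum_le_sum h1).trans ?_
  rw [← Finset.sum_mul]
  have h2 : (∑ t ∈ Finset.range (s + 1), (s.choose t : ℝ)) = 2 ^ s := by
    have h3 := Nat.sum_range_choose s
    have h4 : ((∑ t ∈ Finset.range (s + 1), s.choose t : ℕ) : ℝ) = ((2 ^ s : ℕ) : ℝ) := by rw [h3]
    push_cast at h4
    exact h4
  rw [h2]

theorem dd_sub (u v : ℕ → ℂ) (s : ℕ) : dd (fun t => u t - v t) s = dd u s - dd v s := by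
  rw [dd_eq, dd_eq, dd_eq, ← Finset.sum_sub_distrib]
  refine Finset.sum_congr rfl fun t _ => ?_
  ring

theorem dd_shift (g : ℂ → ℂ) (s : ℕ) : dd (fun t => g (t : ℂ)) s = (fwdDiff 1)^[s] g 0 := by
  rw [dd_eq, fwdDiff_iter_eq_sum_shift]
  refine Finset.sum_congr rfl fun t _ => ?_
  rw [zero_add, nsmul_eq_mul, mul_one, zsmul_eq_mul]
  push_cast
  rfl

theorem dd_poly {P : Polynomial ℂ} {s : ℕ} (h : P.natDegree < s) :
    dd (fun t => P.eval (t : ℂ)) s = 0 := by
  rw [dd_shift (fun z => P.eval z)]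
  have h1 := congrFun (Polynomial.fwdDiff_iter_eq_zero_of_degree_lt h) 0
  exact h1

/-- Newton's formula -/
theorem newton {P : Polynomial ℂ} {M : ℕ} (h : P.natDegree ≤ M) :
    P = ∑ s ∈ Finset.range (M + 1), Polynomial.C (dd (fun t => P.eval (t : ℂ)) s) * bp ℂ s := by
  apply Polynomial.eq_of_infinite_eval_eq
  apply Set.Infinite.mono _ (Set.infinite_range_of_injective (Nat.cast_injective (R := ℂ)))
  rintro _ ⟨m, rfl⟩
  change P.eval (m : ℂ) = Polynomial.eval (m : ℂ) _
  rw [Polynomial.eval_finsetSum]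
  have h1 := shift_eq_sum_fwdDiff_iter (1 : ℕ) (fun t : ℕ => P.eval (t : ℂ)) m 0
  rw [zero_add, smul_eq_mul, mul_one] at h1
  rw [h1]
  have h2 : ∀ s, (m.choose s : ℕ) • (fwdDiff 1)^[s] (fun t : ℕ => P.eval (t : ℂ)) 0 =
      Polynomial.eval (m : ℂ) (Polynomial.C (dd (fun t => P.eval (t : ℂ)) s) * bp ℂ s) := by
    intro s
    rw [Polynomial.eval_mul, Polynomial.eval_C, bp_eval, nsmul_eq_mul, mul_comm]
    rfl
  rw [Finset.sum_congr rfl fun s _ => h2 s]
  rcases le_total m M with hm | hm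
  · apply Finset.sum_subset
    · intro s hs
      rw [Finset.mem_range] at hs ⊢
      omega
    · intro s _ hs
      rw [Finset.mem_range] at hs
      rw [Polynomial.eval_mul, bp_eval, Nat.choose_eq_zero_of_lt (by omega), Nat.cast_zero, mul_zero]
  · symm
    apply Finset.sum_subset
    · intro s hs
      rw [Finset.mem_range] at hs ⊢
      omega
    · intro s _ hs
      rw [Finset.mem_range] at hs
      rw [Polynomial.eval_mul, Polynomial.eval_C, dd_poly (by omega), zero_mul]

/-- Taylor polynomials -/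
theorem rem {g : ℂ → ℂ} (hg : Differentiable ℂ g) {R B : ℝ} (hR : 0 < R)
    (hB : ∀ z, ‖z‖ = R → ‖g z‖ ≤ B) (M : ℕ) :
    ∃ P : Polynomial ℂ, P.natDegree ≤ M ∧
      (∀ z, 2 * ‖z‖ ≤ R → ‖g z - P.eval z‖ ≤ 2 * B * (‖z‖ / R) ^ (M + 1)) ∧
      (1 ≤ M → deriv g 0 = P.derivative.eval 0) := by
  have hB0 : 0 ≤ B := by
    have h1 := hB (R : ℂ) (by rw [Complex.norm_real, Real.norm_of_nonneg hR.le])
    exact (norm_nonneg _).trans h1
  let a : ℕ → ℂ := fun i => ((i.factorial : ℂ))⁻¹ * iteratedDeriv i g 0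
  have ha : ∀ z, HasSum (fun i => a i * z ^ i) (g z) := by
    intro z
    have h1 := Complex.hasSum_taylorSeries_of_entire hg 0 z
    refine h1.congr_fun ?_ |> fun h => h
    intro i
    simp only [a, sub_zero, smul_eq_mul]
    ring
  have hab : ∀ i, ‖a i‖ ≤ B / R ^ i := by
    intro i
    have h1 := Complex.norm_iteratedDeriv_le_of_forall_mem_sphere_norm_le (c := 0) (R := R)
      (C := B) (f := g) i hR hg.diffContOnCl (fun z hz => hB z (by simpa using hz))
    simp only [a]
    rw [norm_mul, norm_inv, Complex.norm_natCast]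
    have h2 : (0 : ℝ) < i.factorial := by exact_mod_cast i.factorial_pos
    rw [inv_mul_le_iff₀ h2]
    refine h1.trans (le_of_eq ?_)
    ring
  refine ⟨∑ i ∈ Finset.range (M + 1), Polynomial.C (a i) * Polynomial.X ^ i, ?_, ?_, ?_⟩
  · refine Polynomial.natDegree_sum_le_of_forall_le _ _ fun i hi => ?_
    rw [Finset.mem_range] at hi
    exact (Polynomial.natDegree_C_mul_X_pow_le _ _).trans (by omega)
  · intro z hz
    have h1 := (hasSum_nat_add_iff' (M + 1)).2 (ha z)
    rw [Polynomial.eval_finsetSum]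
    simp only [Polynomial.eval_mul, Polynomial.eval_C, Polynomial.eval_pow, Polynomial.eval_X]
    have h2 : HasSum (fun i : ℕ => B * (‖z‖ / R) ^ (M + 1) * (1 / 2 : ℝ) ^ i)
        (B * (‖z‖ / R) ^ (M + 1) * 2) := hasSum_geometric_two.mul_left _
    refine (h1.norm_le_of_bounded h2 fun i => ?_).trans (le_of_eq (by ring))
    rw [norm_mul, norm_pow]
    have h3 : ‖z‖ / R ≤ 1 / 2 := by
      rw [div_le_iff₀ hR]
      linarith
    have h4 : 0 ≤ ‖z‖ / R := by positivity
    calc ‖a (i + (M + 1))‖ * ‖z‖ ^ (i + (M + 1)) ≤ B / R ^ (i + (M + 1)) * ‖z‖ ^ (i + (M + 1)) :=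
          mul_le_mul_of_nonneg_right (hab _) (by positivity)
      _ = B * (‖z‖ / R) ^ (M + 1) * (‖z‖ / R) ^ i := by
          rw [div_pow, div_pow, pow_add, pow_add]
          field_simp
          ring
      _ ≤ B * (‖z‖ / R) ^ (M + 1) * (1 / 2 : ℝ) ^ i :=
          mul_le_mul_of_nonneg_left (pow_le_pow_left₀ h4 h3 i) (by positivity)
  · intro hM
    have h1 : deriv g 0 = a 1 := by
      simp only [a]
      rw [iteratedDeriv_one]
      simp
    rw [h1, Polynomial.derivative_sum, Polynomial.eval_finsetSum,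
      Finset.sum_eq_single 1]
    · simp
    · intro i _ hi
      simp only [Polynomial.derivative_mul, Polynomial.derivative_C, zero_mul, zero_add,
        Polynomial.derivative_X_pow, Polynomial.eval_mul, Polynomial.eval_C, Polynomial.eval_pow,
        Polynomial.eval_X]
      rcases Nat.lt_or_ge i 1 with h2 | h2
      · have : i = 0 := by omega
        subst this
        simp
      · rw [zero_pow (by omega), mul_zero, mul_zero]
    · intro h2
      exact absurd (Finset.mem_range.2 (by omega)) h2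

/-- **The differences are small.** -/
theorem dd_small {g : ℂ → ℂ} (hg : Differentiable ℂ g) {R B : ℝ} (hR : 0 < R)
    (hB : ∀ z, ‖z‖ = R → ‖g z‖ ≤ B) {s : ℕ} (hs : 1 ≤ s) (hsR : 2 * (s : ℝ) ≤ R) :
    ‖dd (fun t => g (t : ℂ)) s‖ ≤ 2 ^ (s + 1) * B * (s / R) ^ s := by
  obtain ⟨M, rfl⟩ : ∃ M, s = M + 1 := ⟨s - 1, by omega⟩
  obtain ⟨P, h1, h2, -⟩ := rem hg hR hB M
  have hB0 : 0 ≤ B := by
    have h1 := hB (R : ℂ) (by rw [Complex.norm_real, Real.norm_of_nonneg hR.le])
    exact (norm_nonneg _).trans h1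
  have h3 : dd (fun t => g (t : ℂ)) (M + 1) = dd (fun t => g (t : ℂ) - P.eval (t : ℂ)) (M + 1) := by
    rw [dd_sub, dd_poly (by omega), sub_zero]
  rw [h3]
  refine (norm_dd_le (B := 2 * B * (((M + 1 : ℕ) : ℝ) / R) ^ (M + 1)) fun t ht => ?_).trans
    (le_of_eq (by ring))
  have h4 : (t : ℝ) ≤ ((M + 1 : ℕ) : ℝ) := by exact_mod_cast ht
  refine (h2 t (by rw [Complex.norm_natCast]; linarith)).trans ?_
  rw [Complex.norm_natCast]
  refine mul_le_mul_of_nonneg_left (pow_le_pow_left₀ (by positivity) ?_ _) (by positivity)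
  gcongr

/-- the linear coefficients of the binomial polynomials -/
noncomputable def kap (s : ℕ) : ℂ := (bp ℂ s).derivative.eval 0

theorem bp_eval_zero (s : ℕ) : (bp ℂ s).eval 0 = if s = 0 then 1 else 0 := by
  have h1 := bp_eval (C := ℂ) s 0
  rw [Nat.cast_zero] at h1
  rw [h1]
  rcases s with _ | s
  · simp
  · simp

theorem kap_le (s : ℕ) : ‖kap s‖ ≤ 1 := by
  unfold kap
  rcases s with _ | s
  · have h1 : bp ℂ 0 = 1 := by
      unfold bp
      simp
    rw [h1]
    simp
  · have h1 : bp ℂ (s + 1) = Polynomial.C (((s + 1).factorial : ℂ)⁻¹) *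
        (Polynomial.X * (descPochhammer ℂ s).comp (Polynomial.X - 1)) := by
      unfold bp
      rw [descPochhammer_succ_left]
    rw [h1, Polynomial.derivative_C_mul, Polynomial.derivative_mul, Polynomial.eval_mul,
      Polynomial.eval_C, Polynomial.eval_add, Polynomial.eval_mul, Polynomial.eval_mul,
      Polynomial.derivative_X, Polynomial.eval_one, one_mul, Polynomial.eval_X, zero_mul, add_zero,
      Polynomial.eval_comp, Polynomial.eval_sub, Polynomial.eval_X, Polynomial.eval_one, zero_sub]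
    have h2 : ∀ s : ℕ, ‖(descPochhammer ℂ s).eval (-1)‖ = s.factorial := by
      intro s
      induction s with
      | zero => simp
      | succ s ih =>
        rw [descPochhammer_succ_eval, norm_mul, ih, Nat.factorial_succ]
        have h3 : (-1 : ℂ) - (s : ℂ) = -((s + 1 : ℕ) : ℂ) := by
          push_cast
          ring
        rw [h3, norm_neg, Complex.norm_natCast]
        push_cast
        ring
    rw [norm_mul, h2, norm_inv, Complex.norm_natCast]
    have h3 : (0 : ℝ) < (s + 1).factorial := by exact_mod_cast (s + 1).factorial_pos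
    rw [inv_mul_le_iff₀ h3, mul_one]
    exact_mod_cast Nat.factorial_le (Nat.le_succ s)

/-- **The derivative.** -/
theorem dd_deriv {g : ℂ → ℂ} (hg : Differentiable ℂ g) {R B : ℝ} (hR : 0 < R)
    (hB : ∀ z, ‖z‖ = R → ‖g z‖ ≤ B) {M : ℕ} (hM : 1 ≤ M) (hMR : 2 * (M : ℝ) ≤ R) :
    ‖deriv g 0 - ∑ s ∈ Finset.range (M + 1), dd (fun t => g (t : ℂ)) s * kap s‖ ≤
      2 ^ (M + 2) * B * (M / R) ^ (M + 1) := by
  obtain ⟨P, h1, h2, h3⟩ := rem hg hR hB M
  have hB0 : 0 ≤ B := by
    have h1 := hB (R : ℂ) (by rw [Complex.norm_real, Real.norm_of_nonneg hR.le])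
    exact (norm_nonneg _).trans h1
  have h4 : P.derivative.eval 0 = ∑ s ∈ Finset.range (M + 1),
      dd (fun t => P.eval (t : ℂ)) s * kap s := by
    conv_lhs => rw [newton h1]
    rw [Polynomial.derivative_sum, Polynomial.eval_finsetSum]
    refine Finset.sum_congr rfl fun s _ => ?_
    rw [Polynomial.derivative_C_mul, Polynomial.eval_mul, Polynomial.eval_C]
    rfl
  rw [h3 hM, h4, ← Finset.sum_sub_distrib]
  have h5 : ∀ s ∈ Finset.range (M + 1), ‖dd (fun t => P.eval (t : ℂ)) s * kap s -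
      dd (fun t => g (t : ℂ)) s * kap s‖ ≤ 2 ^ s * (2 * B * ((M : ℝ) / R) ^ (M + 1)) := by
    intro s hs
    rw [Finset.mem_range, Nat.lt_succ_iff] at hs
    have h6 : dd (fun t => P.eval (t : ℂ)) s * kap s - dd (fun t => g (t : ℂ)) s * kap s =
        -(dd (fun t => g (t : ℂ) - P.eval (t : ℂ)) s * kap s) := by
      rw [dd_sub]
      ring
    rw [h6, norm_neg, norm_mul]
    refine (mul_le_of_le_one_right (norm_nonneg _) (kap_le s)).trans ?_
    refine norm_dd_le fun t ht => ?_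
    have h7 : (t : ℝ) ≤ M := by exact_mod_cast ht.trans hs
    refine (h2 t (by rw [Complex.norm_natCast]; linarith)).trans ?_
    rw [Complex.norm_natCast]
    refine mul_le_mul_of_nonneg_left (pow_le_pow_left₀ (by positivity) ?_ _) (by positivity)
    gcongr
  refine (norm_sum_le_of_le _ h5).trans ?_
  rw [← Finset.sum_mul]
  have h6 : (∑ s ∈ Finset.range (M + 1), (2 : ℝ) ^ s) ≤ 2 ^ (M + 1) := by
    have h7 := geom_sum_eq (x := (2 : ℝ)) (by norm_num) (M + 1)
    rw [h7]
    norm_num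
  refine (mul_le_mul_of_nonneg_right h6 (by positivity)).trans (le_of_eq ?_)
  ring

end Pool.Agent.Q40.SM
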