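import Pool.Agent.Q40.SM.Run
import Pool.Agent.Q64.LC.Uni

/-!
Growth functions and Newton coefficients.
-/

set_option autoImplicit false

namespace Pool.Agent.Q40.SM

open MvPolynomial Filter Topology Pool.Agent.Q64.FS Pool.Agent.Q64.LC

variable {d n : ℕ}

/-- The norm of `f z` is at most a constant times `Ψ ‖z‖` for large `z`. -/
def Slow (Ψ : ℝ → ℝ) (f : (Fin d → ℂ) → Fin n → ℂ) : Prop :=
  ∃ C R₀ : ℝ, ∀ z, R₀ ≤ ‖z‖ → ‖f z‖ ≤ C * Ψ ‖z‖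

/-- a monotone growth function with prescribed small values at special radii -/
theorem exists_psi {ε : ℕ → ℝ} (hε : ∀ i, 0 < ε i) :
    ∃ Ψ : ℝ → ℝ, SuperPoly Ψ ∧ Monotone Ψ ∧ (∀ r, 1 ≤ Ψ r) ∧ ∀ s : ℕ, 1 ≤ s →
      ∃ ρ : ℝ, 2 * (s : ℝ) ≤ ρ ∧ (s : ℝ) ≤ ρ * ε s ∧ Ψ ρ = ρ ^ (s - 1) := by
  classical
  let m : ℕ → ℝ → ℝ := fun k x => max x (max (2 * ((k : ℝ) + 1)) (((k : ℝ) + 1) / ε (k + 1)))
  let R : ℕ → ℝ := fun k => Nat.rec 1 (fun k x => m k x + 1) k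
  have hRs : ∀ k, R (k + 1) = m k (R k) + 1 := fun k => rfl
  have hR1 : ∀ k : ℕ, (k : ℝ) + 1 ≤ R k := by
    intro k
    induction k with
    | zero => simp [R]
    | succ k ih =>
      rw [hRs]
      have := le_max_left (R k) (max (2 * ((k : ℝ) + 1)) (((k : ℝ) + 1) / ε (k + 1)))
      simp only [m]
      push_cast
      linarith
  have hRm : StrictMono R := by
    apply strictMono_nat_of_lt_succ
    intro k
    rw [hRs]
    have := le_max_left (R k) (max (2 * ((k : ℝ) + 1)) (((k : ℝ) + 1) / ε (k + 1)))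
    simp only [m]
    linarith
  let K : ℝ → ℕ := fun r => @Nat.findGreatest (fun k : ℕ => R k ≤ r) (Classical.decPred _) ⌈r⌉₊
  have hK : ∀ (k : ℕ) (r : ℝ), R k ≤ r → k ≤ K r := by
    intro k r h
    refine @Nat.le_findGreatest k (fun k => R k ≤ r) (Classical.decPred _) _ ?_ h
    have h1 := (hR1 k).trans h
    have h2 : (k : ℝ) ≤ ⌈r⌉₊ := by
      have := Nat.le_ceil r
      linarith
    exact_mod_cast h2
  have hK0 : ∀ r : ℝ, K r ≠ 0 → R (K r) ≤ r := by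
    intro r h
    exact @Nat.findGreatest_of_ne_zero (K r) (fun k => R k ≤ r) (Classical.decPred _) ⌈r⌉₊ rfl h
  have hKm : Monotone K := by
    intro r r' h
    by_cases h0 : K r = 0
    · rw [h0]
      exact Nat.zero_le _
    · exact hK _ _ ((hK0 r h0).trans h)
  have hK' : ∀ (k : ℕ) (r : ℝ), R k ≤ r → r < R (k + 1) → K r = k := by
    intro k r h1 h2
    refine le_antisymm ?_ (hK k r h1)
    by_contra h3
    push Not at h3
    have h4 := hK0 r (by omega)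
    have h5 := hRm.monotone h3
    linarith
  have hb : ∀ r : ℝ, 1 ≤ max r 1 := fun r => le_max_right _ _
  refine ⟨fun r => (max r 1) ^ K r, fun k => ?_, ?_, fun r => one_le_pow₀ (hb r), ?_⟩
  · refine tendsto_atTop_mono' _ ?_ tendsto_id
    filter_upwards [eventually_ge_atTop (R (k + 1)), eventually_ge_atTop (1 : ℝ)] with r h1 h2
    have h3 := hK (k + 1) r h1
    have h4 : 0 < r ^ k := by positivity
    rw [le_div_iff₀ h4, max_eq_left h2]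
    calc id r * r ^ k = r ^ (k + 1) := by rw [id, pow_succ, mul_comm]
      _ ≤ r ^ K r := pow_le_pow_right₀ h2 h3
  · intro r r' h
    change (max r 1) ^ K r ≤ (max r' 1) ^ K r'
    calc (max r 1) ^ K r ≤ (max r' 1) ^ K r :=
          pow_le_pow_left₀ (by have := hb r; linarith) (max_le_max h le_rfl) _
      _ ≤ (max r' 1) ^ K r' := pow_le_pow_right₀ (hb r') (hKm h)
  · intro s hs
    obtain ⟨k, rfl⟩ : ∃ k, s = k + 1 := ⟨s - 1, by omega⟩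
    have h1 : R k ≤ m k (R k) := le_max_left _ _
    have h2 : m k (R k) < R (k + 1) := by
      rw [hRs]
      linarith
    have h3 : 1 ≤ m k (R k) := by
      have := hR1 k
      have h4 : (0 : ℝ) ≤ k := Nat.cast_nonneg k
      linarith
    refine ⟨m k (R k), ?_, ?_, ?_⟩
    · push_cast
      exact (le_max_left _ _).trans (le_max_right _ _)
    · have h4 : ((k : ℝ) + 1) / ε (k + 1) ≤ m k (R k) := (le_max_right _ _).trans (le_max_right _ _)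
      rw [div_le_iff₀ (hε _)] at h4
      push_cast
      exact h4
    · change (max (m k (R k)) 1) ^ K (m k (R k)) = _
      rw [hK' k _ h1 h2, max_eq_left h3]
      simp

theorem key {s d : ℕ} {ρ e : ℝ} (hs : d + 3 ≤ s) (hρ0 : 0 < ρ)
    (hρ : (s : ℝ) ≤ ρ * (e / (2 * (s : ℝ) + 2) ^ (s * s))) :
    (2 * (s : ℝ)) ^ ((d + 2) * s + 2) / ρ ≤ e := by
  have hs1 : (1 : ℝ) ≤ s := by exact_mod_cast (by omega : 1 ≤ s)
  rw [div_le_iff₀ hρ0]
  have h2 : ρ * (e / (2 * (s : ℝ) + 2) ^ (s * s)) = e * ρ / (2 * (s : ℝ) + 2) ^ (s * s) := by ring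
  rw [h2, le_div_iff₀ (by positivity)] at hρ
  refine le_trans ?_ hρ
  have h3 : (d + 2) * s + 2 ≤ s * s := by
    obtain ⟨t, rfl⟩ : ∃ t, s = t + d + 3 := ⟨s - d - 3, by omega⟩
    nlinarith
  calc (2 * (s : ℝ)) ^ ((d + 2) * s + 2) ≤ (2 * (s : ℝ)) ^ (s * s) :=
        pow_le_pow_right₀ (by linarith) h3
    _ ≤ (2 * (s : ℝ) + 2) ^ (s * s) := pow_le_pow_left₀ (by linarith) (by linarith) _
    _ = 1 * (2 * (s : ℝ) + 2) ^ (s * s) := (one_mul _).symm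
    _ ≤ (s : ℝ) * (2 * (s : ℝ) + 2) ^ (s * s) := mul_le_mul_of_nonneg_right hs1 (by positivity)

theorem est1 {s d : ℕ} {C ρ : ℝ} (hs : 1 ≤ s) (hC0 : 0 ≤ C) (hC : C ≤ s) (hρ0 : 0 < ρ) :
    2 ^ (s + 1) * (2 ^ (d * s) * (C * ρ ^ (s - 1))) * ((s : ℝ) / ρ) ^ s ≤
      (2 * (s : ℝ)) ^ ((d + 2) * s + 2) / ρ := by
  have hs1 : (1 : ℝ) ≤ s := by exact_mod_cast hs
  obtain ⟨t, rfl⟩ : ∃ t, s = t + 1 := ⟨s - 1, by omega⟩
  rw [Nat.add_sub_cancel]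
  have h1 : 2 ^ (t + 1 + 1) * (2 ^ (d * (t + 1)) * (C * ρ ^ t)) * (((t + 1 : ℕ) : ℝ) / ρ) ^ (t + 1) =
      (2 : ℝ) ^ (t + 1 + 1 + d * (t + 1)) * C * ((t + 1 : ℕ) : ℝ) ^ (t + 1) / ρ := by
    rw [div_pow, pow_add (2 : ℝ) (t + 1 + 1), pow_succ ρ t]
    field_simp
  rw [h1]
  refine div_le_div_of_nonneg_right ?_ hρ0.le
  have h2 : (d + 2) * (t + 1) + 2 = (t + 1 + 1 + d * (t + 1)) + (t + 1 + 1) := by ring
  rw [h2, pow_add (2 * ((t + 1 : ℕ) : ℝ)) (t + 1 + 1 + d * (t + 1)) (t + 1 + 1)]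
  calc (2 : ℝ) ^ (t + 1 + 1 + d * (t + 1)) * C * ((t + 1 : ℕ) : ℝ) ^ (t + 1) ≤
        (2 : ℝ) ^ (t + 1 + 1 + d * (t + 1)) * ((t + 1 : ℕ) : ℝ) * ((t + 1 : ℕ) : ℝ) ^ (t + 1) := by
        gcongr
    _ = (2 : ℝ) ^ (t + 1 + 1 + d * (t + 1)) * ((t + 1 : ℕ) : ℝ) ^ (t + 1 + 1) := by
        rw [pow_succ ((t + 1 : ℕ) : ℝ) (t + 1)]
        ring
    _ ≤ (2 * ((t + 1 : ℕ) : ℝ)) ^ (t + 1 + 1 + d * (t + 1)) *
        (2 * ((t + 1 : ℕ) : ℝ)) ^ (t + 1 + 1) := by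
        gcongr
        · linarith
        · linarith

theorem est2 {M d : ℕ} {C ρ : ℝ} (hd : d ≤ M + 1) (hC0 : 0 ≤ C) (hC : C ≤ ((M + 1 : ℕ) : ℝ))
    (hρ0 : 0 < ρ) :
    (d : ℝ) * (2 * ((2 * ((M : ℝ) + 1)) ^ (d * (M + 1)) * (C * ρ ^ M)) *
      ((M : ℝ) / ρ) ^ (M + 1) * (2 * ((M : ℝ) + 1)) ^ (M + 1)) ≤
      (2 * ((M + 1 : ℕ) : ℝ)) ^ ((d + 2) * (M + 1) + 2) / ρ := by
  have hM0 : (0 : ℝ) ≤ M := Nat.cast_nonneg M
  have hd' : (d : ℝ) ≤ (M : ℝ) + 1 := by exact_mod_cast hd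
  have h1 : (d : ℝ) * (2 * ((2 * ((M : ℝ) + 1)) ^ (d * (M + 1)) * (C * ρ ^ M)) *
      ((M : ℝ) / ρ) ^ (M + 1) * (2 * ((M : ℝ) + 1)) ^ (M + 1)) =
      ((2 * d * C) * (2 * ((M : ℝ) + 1)) ^ (d * (M + 1)) * (M : ℝ) ^ (M + 1) *
        (2 * ((M : ℝ) + 1)) ^ (M + 1)) / ρ := by
    rw [div_pow, pow_succ ρ M]
    field_simp
  rw [h1]
  refine div_le_div_of_nonneg_right ?_ hρ0.le
  push_cast at hC ⊢
  have h2 : (d + 2) * (M + 1) + 2 = 2 + d * (M + 1) + (M + 1) + (M + 1) := by ring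
  rw [h2, pow_add _ (2 + d * (M + 1) + (M + 1)), pow_add _ (2 + d * (M + 1)), pow_add _ 2]
  have h3 : 2 * (d : ℝ) * C ≤ (2 * ((M : ℝ) + 1)) ^ 2 := by
    calc 2 * (d : ℝ) * C ≤ 2 * ((M : ℝ) + 1) * ((M : ℝ) + 1) := by gcongr
      _ ≤ (2 * ((M : ℝ) + 1)) ^ 2 := by nlinarith
  gcongr
  linarith

/-- **Growth, Newton coefficients and Newton series.** -/
theorem flat_of_slow {ε : ℕ → ℝ} (hε : ∀ i, 0 < ε i) :
    ∃ Ψ : ℝ → ℝ, SuperPoly Ψ ∧ Monotone Ψ ∧ (∀ r, 1 ≤ Ψ r) ∧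
      ∀ (n d : ℕ) (f : (Fin d → ℂ) → Fin n → ℂ), Differentiable ℂ f → Slow Ψ f →
        FlatC ε (ncf (vals f)) ∧ ∀ᶠ M : ℕ in atTop, ∀ z, ‖z‖ ≤ M → ∀ j,
          ‖f z j - eval z (npoly (Finset.Iic fun _ => M) (ncf (vals f)) j)‖ ≤
            1 / ((M : ℝ) + 1) := by
  classical
  obtain ⟨Ψ, hΨ, hmon, hone, hrad⟩ := exists_psi
    (ε := fun s => min (ε s) (1 / ((s : ℝ) + 1)) / (2 * (s : ℝ) + 2) ^ (s * s)) (fun s => by
      have := hε s
      positivity)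
  refine ⟨Ψ, hΨ, hmon, hone, fun n d f hf hslow => ?_⟩
  obtain ⟨C0, R₀, hR₀⟩ := hslow
  set C := max C0 0 with hC
  have hC0 : 0 ≤ C := le_max_right _ _
  have hR : ∀ z, R₀ ≤ ‖z‖ → ‖f z‖ ≤ C * Ψ ‖z‖ := fun z hz => (hR₀ z hz).trans
    (mul_le_mul_of_nonneg_right (le_max_left _ _) (by have := hone ‖z‖; linarith))
  obtain ⟨N, hN⟩ := exists_nat_ge (max R₀ C)
  have hNR : R₀ ≤ N := (le_max_left _ _).trans hN
  have hNC : C ≤ N := (le_max_right _ _).trans hN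
  -- the estimate at the special radii
  have hmain : ∀ s : ℕ, N + d + 3 ≤ s → C ≤ s ∧ ∃ ρ : ℝ, 0 < ρ ∧ 2 * (s : ℝ) ≤ ρ ∧
      (∀ z, ‖z‖ = ρ → ‖f z‖ ≤ C * ρ ^ (s - 1)) ∧
      (2 * (s : ℝ)) ^ ((d + 2) * s + 2) / ρ ≤ min (ε s) (1 / ((s : ℝ) + 1)) := by
    intro s hs
    obtain ⟨ρ, h1, h2, h3⟩ := hrad s (by omega)
    have hs0 : (1 : ℝ) ≤ s := by exact_mod_cast (by omega : 1 ≤ s)
    have hρ0 : 0 < ρ := by linarith
    have hsN : (N : ℝ) ≤ s := by exact_mod_cast (by omega : N ≤ s)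
    refine ⟨hNC.trans hsN, ρ, hρ0, h1, fun z hz => ?_, key (by omega) hρ0 h2⟩
    have h4 := hR z (by rw [hz]; linarith)
    rw [hz, h3] at h4
    exact h4
  refine ⟨⟨N + d + 3, fun i hi j => ?_⟩, ?_⟩
  · obtain ⟨hCs, ρ, h0, h1, h2, h3⟩ := hmain (mx i) hi
    exact (ncf_small hf h0 h2 (by omega) h1 j).trans ((est1 (by omega) hC0 hCs h0).trans
      (h3.trans (min_le_left _ _)))
  · filter_upwards [eventually_ge_atTop (N + d + 3)] with M hM z hz j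
    obtain ⟨hCs, ρ, h0, h1, h2, h3⟩ := hmain (M + 1) (by omega)
    have hM0 : (0 : ℝ) ≤ M := Nat.cast_nonneg M
    push_cast at h1
    have hd : Differentiable ℂ fun z => f z j := (differentiable_pi.1 hf) j
    have h4 := part_err hd h0 (B := C * ρ ^ M) (fun z hz => by
      have h5 := h2 z hz
      rw [Nat.add_sub_cancel] at h5
      exact (norm_le_pi_norm _ j).trans h5) (M := M) (by linarith) hz Finset.univ
    rw [part_univ, Finset.card_univ, Fintype.card_fin] at h4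
    refine h4.trans ((est2 (by omega) hC0 hCs h0).trans (h3.trans ((min_le_right _ _).trans ?_)))
    push_cast
    refine one_div_le_one_div_of_le (by positivity) ?_
    linarith

/-- affine substitutions -/
theorem Slow.comp {e : ℕ} {Ψ : ℝ → ℝ} (hmon : Monotone Ψ) (hone : ∀ r, 1 ≤ Ψ r)
    {f : (Fin d → ℂ) → Fin n → ℂ} (hf : Continuous f) (h : Slow Ψ f) (z0 : Fin d → ℂ)
    (v : Fin e → Fin d → ℂ) (hv : ∑ i, ‖v i‖ ≤ 1 / 2) :
    Slow Ψ fun t : Fin e → ℂ => f (z0 + ∑ i, t i • v i) := by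
  obtain ⟨C, R₀, h⟩ := h
  obtain ⟨B, hB⟩ := (isCompact_closedBall (0 : Fin d → ℂ) R₀).exists_bound_of_continuousOn
    hf.continuousOn
  have h1 : ∀ w, ‖f w‖ ≤ (max C 0 + max B 0) * Ψ ‖w‖ := by
    intro w
    have h2 := hone ‖w‖
    rcases le_total R₀ ‖w‖ with h3 | h3
    · refine (h w h3).trans (mul_le_mul_of_nonneg_right ?_ (by linarith))
      have := le_max_left C 0
      have := le_max_right B 0
      linarith
    · refine (hB w (by rwa [mem_closedBall_zero_iff])).trans ?_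
      have h4 := le_max_right C 0
      have h5 := le_max_left B 0
      have h6 := le_max_right B 0
      calc B ≤ (max C 0 + max B 0) * 1 := by linarith
        _ ≤ _ := mul_le_mul_of_nonneg_left h2 (by linarith)
  refine ⟨max C 0 + max B 0, 2 * ‖z0‖, fun t ht => (h1 _).trans ?_⟩
  refine mul_le_mul_of_nonneg_left (hmon ?_) (by
    have h4 := le_max_right C 0
    have h6 := le_max_right B 0
    linarith)
  have h2 : ‖∑ i, t i • v i‖ ≤ ‖t‖ * (1 / 2) := by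
    refine (norm_sum_le _ _).trans ?_
    calc ∑ i, ‖t i • v i‖ ≤ ∑ i, ‖t‖ * ‖v i‖ := by
          refine Finset.sum_le_sum fun i _ => ?_
          rw [norm_smul]
          exact mul_le_mul_of_nonneg_right (norm_le_pi_norm t i) (norm_nonneg _)
      _ = ‖t‖ * ∑ i, ‖v i‖ := (Finset.mul_sum _ _ _).symm
      _ ≤ ‖t‖ * (1 / 2) := mul_le_mul_of_nonneg_left hv (norm_nonneg _)
  refine (norm_add_le _ _).trans ?_
  linarith

end Pool.Agent.Q40.SM
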