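import Pool.Agent.Q40.SM.Near

/-!
Convergence of the Newton series of entire functions of several variables of slow growth.
-/

set_option autoImplicit false

namespace Pool.Agent.Q40.SM

open MvPolynomial Filter Topology Pool.Agent.Q64.FS

theorem bp_bound (z : ℂ) (s : ℕ) : ‖(bp ℂ s).eval z‖ ≤ (‖z‖ + 1) ^ s := by
  have h1 : ‖(descPochhammer ℂ s).eval z‖ ≤ (‖z‖ + 1) ^ s * s.factorial := by
    induction s with
    | zero => simp
    | succ s ih =>
      rw [descPochhammer_succ_eval, norm_mul, Nat.factorial_succ, pow_succ]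
      have h2 : ‖z - (s : ℂ)‖ ≤ (‖z‖ + 1) * ((s : ℝ) + 1) := by
        refine (norm_sub_le _ _).trans ?_
        rw [Complex.norm_natCast]
        have h3 : (0 : ℝ) ≤ ‖z‖ := norm_nonneg z
        have h4 : (0 : ℝ) ≤ s := Nat.cast_nonneg s
        nlinarith
      refine (mul_le_mul ih h2 (norm_nonneg _) (by positivity)).trans (le_of_eq ?_)
      push_cast
      ring
  unfold bp
  rw [Polynomial.eval_mul, Polynomial.eval_C, norm_mul, norm_inv, Complex.norm_natCast]
  have h3 : (0 : ℝ) < s.factorial := by exact_mod_cast s.factorial_pos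
  rw [inv_mul_le_iff₀ h3, mul_comm]
  exact h1

/-- **The error of the Newton series in one variable.** -/
theorem newton_err {g : ℂ → ℂ} (hg : Differentiable ℂ g) {R B : ℝ} (hR : 0 < R)
    (hB : ∀ z, ‖z‖ = R → ‖g z‖ ≤ B) {M : ℕ} (hMR : 2 * (M : ℝ) ≤ R) {z : ℂ} (hz : ‖z‖ ≤ M) :
    ‖g z - ∑ s ∈ Finset.range (M + 1), dd (fun t => g (t : ℂ)) s * (bp ℂ s).eval z‖ ≤
      2 * B * (M / R) ^ (M + 1) * (2 * ((M : ℝ) + 1)) ^ (M + 1) := by
  obtain ⟨P, h1, h2, -⟩ := rem hg hR hB M
  have hB0 : 0 ≤ B := by
    have h1 := hB (R : ℂ) (by rw [Complex.norm_real, Real.norm_of_nonneg hR.le])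
    exact (norm_nonneg _).trans h1
  have hM0 : (0 : ℝ) ≤ M := Nat.cast_nonneg M
  set E := 2 * B * ((M : ℝ) / R) ^ (M + 1) with hE
  have hE0 : 0 ≤ E := by positivity
  have h4 : P.eval z = ∑ s ∈ Finset.range (M + 1),
      dd (fun t => P.eval (t : ℂ)) s * (bp ℂ s).eval z := by
    conv_lhs => rw [newton h1]
    rw [Polynomial.eval_finsetSum]
    refine Finset.sum_congr rfl fun s _ => ?_
    rw [Polynomial.eval_mul, Polynomial.eval_C]
  have hrem : ∀ x : ℂ, ‖x‖ ≤ M → ‖g x - P.eval x‖ ≤ E := by
    intro x hx
    refine (h2 x (by linarith)).trans ?_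
    refine mul_le_mul_of_nonneg_left (pow_le_pow_left₀ (by positivity) ?_ _) (by positivity)
    gcongr
  have h5 : ∀ s ∈ Finset.range (M + 1), ‖dd (fun t => g (t : ℂ) - P.eval (t : ℂ)) s *
      (bp ℂ s).eval z‖ ≤ (2 * ((M : ℝ) + 1)) ^ s * E := by
    intro s hs
    rw [Finset.mem_range, Nat.lt_succ_iff] at hs
    rw [norm_mul]
    have h6 : ‖dd (fun t => g (t : ℂ) - P.eval (t : ℂ)) s‖ ≤ 2 ^ s * E := by
      refine norm_dd_le fun t ht => hrem _ ?_
      rw [Complex.norm_natCast]
      exact_mod_cast ht.trans hs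
    have h7 : ‖(bp ℂ s).eval z‖ ≤ ((M : ℝ) + 1) ^ s := (bp_bound z s).trans
      (pow_le_pow_left₀ (by positivity) (by linarith) _)
    refine (mul_le_mul h6 h7 (norm_nonneg _) (by positivity)).trans (le_of_eq ?_)
    rw [mul_pow]
    ring
  have h6 : g z - ∑ s ∈ Finset.range (M + 1), dd (fun t => g (t : ℂ)) s * (bp ℂ s).eval z =
      (g z - P.eval z) - ∑ s ∈ Finset.range (M + 1), dd (fun t => g (t : ℂ) - P.eval (t : ℂ)) s *
        (bp ℂ s).eval z := by
    have h7 : ∑ s ∈ Finset.range (M + 1), dd (fun t => g (t : ℂ) - P.eval (t : ℂ)) s *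
        (bp ℂ s).eval z = (∑ s ∈ Finset.range (M + 1), dd (fun t => g (t : ℂ)) s *
        (bp ℂ s).eval z) - P.eval z := by
      rw [h4, ← Finset.sum_sub_distrib]
      refine Finset.sum_congr rfl fun s _ => ?_
      rw [dd_sub]
      ring
    rw [h7]
    ring
  rw [h6]
  have h8 : ∑ s ∈ Finset.range (M + 1), (2 * ((M : ℝ) + 1)) ^ s * E ≤
      ((2 * ((M : ℝ) + 1)) ^ (M + 1) - 1) * E := by
    rw [← Finset.sum_mul]
    refine mul_le_mul_of_nonneg_right ?_ hE0
    have h9 := geom_sum_eq (x := 2 * ((M : ℝ) + 1)) (by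
      intro h
      nlinarith) (M + 1)
    rw [h9]
    refine div_le_self ?_ (by linarith)
    have h10 : (1 : ℝ) ≤ (2 * ((M : ℝ) + 1)) ^ (M + 1) := one_le_pow₀ (by linarith)
    linarith
  refine (norm_sub_le _ _).trans ?_
  have h9 := (norm_sum_le_of_le _ h5).trans h8
  have h10 := hrem z hz
  calc ‖g z - P.eval z‖ + _ ≤ E + ((2 * ((M : ℝ) + 1)) ^ (M + 1) - 1) * E := add_le_add h10 h9
    _ = E * (2 * ((M : ℝ) + 1)) ^ (M + 1) := by ring

variable {d : ℕ}

/-- the coordinates in `S` are replaced by `m` -/
def mix (S : Finset (Fin d)) (m : Fin d → ℕ) (z : Fin d → ℂ) (k : Fin d) : ℂ :=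
  if k ∈ S then (m k : ℂ) else z k

/-- the box in the coordinates in `S` -/
def bx (S : Finset (Fin d)) (M : ℕ) : Finset (Fin d → ℕ) :=
  Finset.Iic fun k => if k ∈ S then M else 0

/-- the product of the binomial polynomials -/
noncomputable def bt (z : Fin d → ℂ) (i : Fin d → ℕ) : ℂ := ∏ k, (bp ℂ (i k)).eval (z k)

/-- the partial Newton series in the coordinates in `S` -/
noncomputable def part (h : (Fin d → ℂ) → ℂ) (M : ℕ) (S : Finset (Fin d)) (z : Fin d → ℂ) : ℂ :=
  ∑ i ∈ bx S M, ncf (n := 1) (fun m _ => h (mix S m z)) i 0 * bt z i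

theorem mem_bx {S : Finset (Fin d)} {M : ℕ} {i : Fin d → ℕ} :
    i ∈ bx S M ↔ ∀ k, i k ≤ if k ∈ S then M else 0 := by
  unfold bx
  rw [Finset.mem_Iic, Pi.le_def]

theorem bx_le {S : Finset (Fin d)} {M : ℕ} {i : Fin d → ℕ} (h : i ∈ bx S M) (k : Fin d) :
    i k ≤ M := by
  have h1 := mem_bx.1 h k
  split_ifs at h1
  · exact h1
  · exact h1.trans (Nat.zero_le _)

theorem bx_zero {S : Finset (Fin d)} {M : ℕ} {i : Fin d → ℕ} (h : i ∈ bx S M) {k : Fin d}
    (hk : k ∉ S) : i k = 0 := by
  have h1 := mem_bx.1 h k
  rw [if_neg hk] at h1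
  exact Nat.le_zero.1 h1

theorem part_empty (h : (Fin d → ℂ) → ℂ) (M : ℕ) (z : Fin d → ℂ) : part h M ∅ z = h z := by
  classical
  have h1 : bx (∅ : Finset (Fin d)) M = {0} := by
    ext i
    rw [mem_bx, Finset.mem_singleton]
    constructor
    · intro hi
      funext k
      have := hi k
      simpa using this
    · rintro rfl k
      exact Nat.zero_le _
  unfold part
  rw [h1, Finset.sum_singleton]
  have h2 : bt z 0 = 1 := by
    unfold bt
    refine Finset.prod_eq_one fun k _ => ?_
    unfold bp
    simp
  have h3 : Finset.Iic (0 : Fin d → ℕ) = {0} := by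
    ext m
    rw [Finset.mem_Iic, Finset.mem_singleton]
    constructor
    · intro h
      funext k
      exact Nat.le_zero.1 (h k)
    · intro h
      rw [h]
  unfold ncf
  rw [h3, Finset.sum_singleton, h2, mul_one]
  have h4 : wt (0 : Fin d → ℕ) 0 = 1 := by
    unfold wt
    simp
  have h5 : mix (∅ : Finset (Fin d)) 0 z = z := by
    funext k
    unfold mix
    rw [if_neg (Finset.notMem_empty k)]
  rw [h4, one_mul]
  change h (mix ∅ 0 z) = h z
  rw [h5]

theorem dd_sum {I : Type} (s : Finset I) (a : I → ℂ) (u : I → ℕ → ℂ) (r : ℕ) :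
    dd (fun t => ∑ i ∈ s, u i t * a i) r = ∑ i ∈ s, dd (u i) r * a i := by
  rw [dd_eq]
  simp only [Finset.mul_sum]
  rw [Finset.sum_comm]
  refine Finset.sum_congr rfl fun i _ => ?_
  rw [dd_eq, Finset.sum_mul]
  refine Finset.sum_congr rfl fun t _ => ?_
  ring

theorem bt_update_zero {z : Fin d → ℂ} {i : Fin d → ℕ} {l : Fin d} (hi : i l = 0) (ζ : ℂ) :
    bt (Function.update z l ζ) i = bt z i := by
  classical
  unfold bt
  refine Finset.prod_congr rfl fun k _ => ?_
  by_cases hk : k = l
  · subst hk
    rw [hi]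
    unfold bp
    simp
  · rw [Function.update_of_ne hk]

theorem bt_split (z : Fin d → ℂ) (i : Fin d → ℕ) (l : Fin d) :
    bt z i = bt z (Function.update i l 0) * (bp ℂ (i l)).eval (z l) := by
  classical
  unfold bt
  rw [← Finset.mul_prod_erase Finset.univ _ (Finset.mem_univ l),
    ← Finset.mul_prod_erase Finset.univ (fun k => (bp ℂ (Function.update i l 0 k)).eval (z k))
      (Finset.mem_univ l), Function.update_self]
  have h1 : (bp ℂ 0).eval (z l) = 1 := by
    unfold bp
    simp
  rw [h1, one_mul, mul_comm]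
  congr 1
  refine Finset.prod_congr rfl fun k hk => ?_
  rw [Function.update_of_ne (Finset.ne_of_mem_erase hk)]

/-- one more coordinate -/
theorem part_insert (h : (Fin d → ℂ) → ℂ) (M : ℕ) {S : Finset (Fin d)} {l : Fin d} (hl : l ∉ S)
    (z : Fin d → ℂ) : part h M (insert l S) z = ∑ s ∈ Finset.range (M + 1),
      dd (fun t => part h M S (Function.update z l (t : ℂ))) s * (bp ℂ s).eval (z l) := by
  classical
  -- the right hand side
  have h1 : ∀ s, dd (fun t => part h M S (Function.update z l (t : ℂ))) s =
      ∑ i ∈ bx S M, dd (fun t => ncf (n := 1)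
        (fun m _ => h (mix S m (Function.update z l (t : ℂ)))) i 0) s * bt z i := by
    intro s
    rw [← dd_sum]
    congr 1
    funext t
    unfold part
    refine Finset.sum_congr rfl fun i hi => ?_
    rw [bt_update_zero (bx_zero hi hl)]
  -- the coefficients
  have h2 : ∀ i : Fin d → ℕ, ncf (n := 1) (fun m _ => h (mix (insert l S) m z)) i 0 =
      dd (fun t => ncf (n := 1) (fun m _ => h (mix S m (Function.update z l (t : ℂ))))
        (Function.update i l 0) 0) (i l) := by
    intro i
    rw [ncf_slice _ i l]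
    congr 1
    funext t
    unfold ncf
    refine Finset.sum_congr rfl fun m _ => ?_
    congr 2
    funext k
    unfold mix
    by_cases hk : k = l
    · subst hk
      rw [if_pos (Finset.mem_insert_self _ _), if_neg hl, Function.update_self,
        Function.update_self]
    · rw [Function.update_of_ne hk, Function.update_of_ne hk]
      by_cases hkS : k ∈ S
      · rw [if_pos hkS, if_pos (Finset.mem_insert_of_mem hkS)]
      · rw [if_neg hkS, if_neg (by
          rw [Finset.mem_insert]
          rintro (h' | h')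
          · exact hk h'
          · exact hkS h')]
  rw [Finset.sum_congr rfl fun s _ => by rw [h1, Finset.sum_mul]]
  rw [← Finset.sum_product']
  unfold part
  refine Finset.sum_bij' (fun i _ => (i l, Function.update i l 0))
    (fun q _ => Function.update q.2 l q.1) ?_ ?_ ?_ ?_ ?_
  · intro i hi
    rw [Finset.mem_product, Finset.mem_range, Nat.lt_succ_iff, mem_bx]
    refine ⟨bx_le hi l, fun k => ?_⟩
    change Function.update i l 0 k ≤ _
    by_cases hk : k = l
    · subst hk
      rw [Function.update_self]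
      exact Nat.zero_le _
    · rw [Function.update_of_ne hk]
      have h3 := mem_bx.1 hi k
      by_cases hkS : k ∈ S
      · rw [if_pos hkS]
        exact bx_le hi k
      · rw [if_neg hkS]
        rw [if_neg (by
          rw [Finset.mem_insert]
          rintro (h' | h')
          · exact hk h'
          · exact hkS h')] at h3
        exact h3
  · rintro ⟨s, i⟩ hq
    rw [Finset.mem_product, Finset.mem_range, Nat.lt_succ_iff] at hq
    rw [mem_bx]
    intro k
    change Function.update i l s k ≤ _
    by_cases hk : k = l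
    · subst hk
      rw [Function.update_self, if_pos (Finset.mem_insert_self _ _)]
      exact hq.1
    · rw [Function.update_of_ne hk]
      have h3 := mem_bx.1 hq.2 k
      by_cases hkS : k ∈ S
      · rw [if_pos (Finset.mem_insert_of_mem hkS)]
        exact bx_le hq.2 k
      · rw [if_neg hkS] at h3
        exact h3.trans (Nat.zero_le _)
  · intro i _
    change Function.update (Function.update i l 0) l (i l) = i
    rw [Function.update_idem, Function.update_eq_self]
  · rintro ⟨s, i⟩ hq
    rw [Finset.mem_product] at hq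
    have hil : i l = 0 := bx_zero hq.2 hl
    change (Function.update i l s l, Function.update (Function.update i l s) l 0) = (s, i)
    rw [Function.update_self, Function.update_idem, ← hil, Function.update_eq_self]
  · intro i _
    change _ = dd (fun t => ncf (n := 1) (fun m _ => h (mix S m (Function.update z l (t : ℂ))))
      (Function.update i l 0) 0) (i l) * bt z (Function.update i l 0) * (bp ℂ (i l)).eval (z l)
    rw [h2, bt_split z i l]
    ring

/-- bounds for the partial Newton series -/
theorem part_bound {h : (Fin d → ℂ) → ℂ} {M : ℕ} {S : Finset (Fin d)} {z : Fin d → ℂ} {B : ℝ}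
    (hB : ∀ m ∈ bx S M, ‖h (mix S m z)‖ ≤ B) (hz : ∀ k ∈ S, ‖z k‖ ≤ M) :
    ‖part h M S z‖ ≤ (2 * ((M : ℝ) + 1)) ^ (d * (M + 1)) * B := by
  classical
  have hM0 : (0 : ℝ) ≤ M := Nat.cast_nonneg M
  have hB0 : 0 ≤ B := (norm_nonneg _).trans (hB 0 (mem_bx.2 fun k => Nat.zero_le _))
  have h1 : ∀ i ∈ bx S M, ‖ncf (n := 1) (fun m _ => h (mix S m z)) i 0 * bt z i‖ ≤
      (2 * ((M : ℝ) + 1)) ^ (d * M) * B := by
    intro i hi
    have hsum : ∑ k, i k ≤ d * M := by
      calc ∑ k, i k ≤ ∑ _k : Fin d, M := Finset.sum_le_sum fun k _ => bx_le hi k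
        _ = d * M := by rw [Finset.sum_const, Finset.card_univ, Fintype.card_fin, smul_eq_mul]
    have h2 : ‖ncf (n := 1) (fun m _ => h (mix S m z)) i 0‖ ≤ 2 ^ (∑ k, i k) * B := by
      rw [← sum_bin, Finset.sum_mul]
      unfold ncf
      refine norm_sum_le_of_le _ fun m hm => ?_
      rw [norm_mul, norm_wt]
      refine mul_le_mul_of_nonneg_left (hB m (mem_bx.2 fun k => ?_)) (Nat.cast_nonneg _)
      exact ((Finset.mem_Iic.1 hm) k).trans (mem_bx.1 hi k)
    have h3 : ‖bt z i‖ ≤ ((M : ℝ) + 1) ^ (∑ k, i k) := by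
      unfold bt
      rw [norm_prod, ← Finset.prod_pow_eq_pow_sum]
      refine Finset.prod_le_prod (fun k _ => norm_nonneg _) fun k _ => ?_
      by_cases hk : k ∈ S
      · exact (bp_bound _ _).trans (pow_le_pow_left₀ (by positivity) (by linarith [hz k hk]) _)
      · rw [bx_zero hi hk]
        unfold bp
        simp
    rw [norm_mul]
    calc ‖ncf (n := 1) (fun m _ => h (mix S m z)) i 0‖ * ‖bt z i‖ ≤
          (2 ^ (∑ k, i k) * B) * ((M : ℝ) + 1) ^ (∑ k, i k) :=
          mul_le_mul h2 h3 (norm_nonneg _) (by positivity)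
      _ = (2 * ((M : ℝ) + 1)) ^ (∑ k, i k) * B := by
          rw [mul_pow]
          ring
      _ ≤ (2 * ((M : ℝ) + 1)) ^ (d * M) * B :=
          mul_le_mul_of_nonneg_right (pow_le_pow_right₀ (by linarith) hsum) hB0
  unfold part
  refine (norm_sum_le_of_le _ h1).trans ?_
  rw [Finset.sum_const, nsmul_eq_mul]
  have h2 : ((bx S M).card : ℝ) ≤ (2 * ((M : ℝ) + 1)) ^ d := by
    have h3 : (bx S M).card ≤ (M + 1) ^ d := by
      have h4 : bx S M ⊆ Fintype.piFinset fun _ : Fin d => Finset.range (M + 1) := by
        intro i hi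
        rw [Fintype.mem_piFinset]
        intro k
        rw [Finset.mem_range, Nat.lt_succ_iff]
        exact bx_le hi k
      refine (Finset.card_le_card h4).trans (le_of_eq ?_)
      rw [Fintype.card_piFinset_const, Finset.card_range]
    have h5 : ((bx S M).card : ℝ) ≤ ((M : ℝ) + 1) ^ d := by exact_mod_cast h3
    exact h5.trans (pow_le_pow_left₀ (by positivity) (by linarith) _)
  calc ((bx S M).card : ℝ) * ((2 * ((M : ℝ) + 1)) ^ (d * M) * B) ≤
        (2 * ((M : ℝ) + 1)) ^ d * ((2 * ((M : ℝ) + 1)) ^ (d * M) * B) :=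
        mul_le_mul_of_nonneg_right h2 (by positivity)
    _ = (2 * ((M : ℝ) + 1)) ^ (d * (M + 1)) * B := by
        have h6 : d * (M + 1) = d + d * M := by ring
        rw [h6, pow_add]
        ring

theorem diff_part {h : (Fin d → ℂ) → ℂ} (hh : Differentiable ℂ h) (M : ℕ) (S : Finset (Fin d)) :
    Differentiable ℂ (part h M S) := by
  classical
  unfold part ncf
  apply Differentiable.fun_sum
  intro i _
  apply Differentiable.mul
  · apply Differentiable.fun_sum
    intro m _
    apply Differentiable.const_mul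
    apply hh.comp
    rw [differentiable_pi]
    intro k
    unfold mix
    split_ifs
    · exact differentiable_const _
    · exact differentiable_apply k
  · unfold bt
    have h1 : ∀ k, Differentiable ℂ fun z : Fin d → ℂ => (bp ℂ (i k)).eval (z k) := by
      intro k
      have h2 : Differentiable ℂ fun w : ℂ => (bp ℂ (i k)).eval w := (bp ℂ (i k)).differentiable
      have h3 : Differentiable ℂ fun z : Fin d → ℂ => z k := differentiable_apply k
      exact h2.comp h3
    have h4 : ∀ T : Finset (Fin d), Differentiable ℂ fun z : Fin d → ℂ =>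
        ∏ k ∈ T, (bp ℂ (i k)).eval (z k) := by
      intro T
      induction T using Finset.induction_on with
      | empty =>
        simp only [Finset.prod_empty]
        exact differentiable_const _
      | insert k T hk ih =>
        simp only [Finset.prod_insert hk]
        exact (h1 k).mul ih
    exact h4 Finset.univ

/-- **The error of the Newton series in several variables.** -/
theorem part_err {h : (Fin d → ℂ) → ℂ} (hh : Differentiable ℂ h) {R B : ℝ} (hR : 0 < R)
    (hB : ∀ z, ‖z‖ = R → ‖h z‖ ≤ B) {M : ℕ} (hMR : 2 * (M : ℝ) ≤ R) {z : Fin d → ℂ}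
    (hz : ‖z‖ ≤ M) (S : Finset (Fin d)) :
    ‖h z - part h M S z‖ ≤ S.card * (2 * ((2 * ((M : ℝ) + 1)) ^ (d * (M + 1)) * B) *
      (M / R) ^ (M + 1) * (2 * ((M : ℝ) + 1)) ^ (M + 1)) := by
  classical
  have hM0 : (0 : ℝ) ≤ M := Nat.cast_nonneg M
  induction S using Finset.induction_on with
  | empty =>
    rw [part_empty, sub_self, norm_zero, Finset.card_empty, Nat.cast_zero, zero_mul]
  | insert l S hl ih =>
    have h1 : ‖part h M S z - part h M (insert l S) z‖ ≤
        2 * ((2 * ((M : ℝ) + 1)) ^ (d * (M + 1)) * B) *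
          (M / R) ^ (M + 1) * (2 * ((M : ℝ) + 1)) ^ (M + 1) := by
      have h2 : Differentiable ℂ fun ζ : ℂ => part h M S (Function.update z l ζ) := by
        apply (diff_part hh M S).comp
        rw [differentiable_pi]
        intro k
        by_cases hk : k = l
        · subst hk
          simp only [Function.update_self]
          exact differentiable_id
        · simp only [Function.update_of_ne hk]
          exact differentiable_const _
      have h3 : ∀ ζ : ℂ, ‖ζ‖ = R → ‖part h M S (Function.update z l ζ)‖ ≤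
          (2 * ((M : ℝ) + 1)) ^ (d * (M + 1)) * B := by
        intro ζ hζ
        refine part_bound (fun m hm => hB _ ?_) fun k hk => ?_
        · apply le_antisymm
          · rw [pi_norm_le_iff_of_nonneg hR.le]
            intro k
            unfold mix
            split_ifs with hk
            · rw [Complex.norm_natCast]
              have h4 : (m k : ℝ) ≤ M := by exact_mod_cast bx_le hm k
              linarith
            · by_cases hkl : k = l
              · subst hkl
                rw [Function.update_self, hζ]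
              · rw [Function.update_of_ne hkl]
                have := norm_le_pi_norm z k
                linarith
          · have h4 := norm_le_pi_norm (mix S m (Function.update z l ζ)) l
            unfold mix at h4
            rw [if_neg hl, Function.update_self, hζ] at h4
            exact h4
        · have hkl : k ≠ l := by
            rintro rfl
            exact hl hk
          rw [Function.update_of_ne hkl]
          exact (norm_le_pi_norm z k).trans hz
      have h4 := newton_err h2 hR h3 hMR ((norm_le_pi_norm z l).trans hz)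
      rw [← part_insert h M hl z, Function.update_eq_self] at h4
      exact h4
    rw [Finset.card_insert_of_notMem hl]
    have h2 : h z - part h M (insert l S) z =
        (h z - part h M S z) + (part h M S z - part h M (insert l S) z) := by ring
    rw [h2]
    refine (norm_add_le _ _).trans ?_
    push_cast
    rw [add_mul, one_mul]
    exact add_le_add ih h1

theorem bpm_bt (z : Fin d → ℂ) (i : Fin d → ℕ) : eval z (bpm ℂ i) = bt z i := by
  unfold bpm bt
  rw [map_prod]
  exact Finset.prod_congr rfl fun k _ => eval_aeval_X z k _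

theorem part_univ {n : ℕ} (f : (Fin d → ℂ) → Fin n → ℂ) (M : ℕ) (z : Fin d → ℂ) (j : Fin n) :
    part (fun z => f z j) M Finset.univ z =
      eval z (npoly (Finset.Iic fun _ => M) (ncf (vals f)) j) := by
  classical
  unfold part npoly
  rw [map_sum]
  have h1 : bx (Finset.univ : Finset (Fin d)) M = Finset.Iic fun _ => M := by
    unfold bx
    congr 1
    funext k
    rw [if_pos (Finset.mem_univ k)]
  rw [h1]
  refine Finset.sum_congr rfl fun i _ => ?_
  rw [map_mul, eval_C, bpm_bt]
  congr 1
  unfold ncf
  refine Finset.sum_congr rfl fun m _ => ?_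
  congr 1
  have h2 : mix Finset.univ m z = fun k => (m k : ℂ) := by
    funext k
    unfold mix
    rw [if_pos (Finset.mem_univ k)]
  change f (mix Finset.univ m z) j = f (fun k => (m k : ℂ)) j
  rw [h2]

end Pool.Agent.Q40.SM
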